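import Pool.Agent.Helper57.PH.Halve

/-!
# PH: the classes of the 2-descent, and the number of prime factors
-/

set_option autoImplicit false

namespace Pool.Agent.Helper57.PH

/-- squarefree integers composed of the primes dividing `M`, with both signs -/
def Sq (M : ℤ) : Finset ℤ :=
  (M.natAbs.primeFactors.powerset.image (fun s => ((∏ p ∈ s, p : ℕ) : ℤ))) ∪
    (M.natAbs.primeFactors.powerset.image (fun s => -((∏ p ∈ s, p : ℕ) : ℤ)))

theorem card_Sq (M : ℤ) : (Sq M).card ≤ 2 * 2 ^ M.natAbs.primeFactors.card := by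
  refine (Finset.card_union_le _ _).trans ?_
  have h1 := Finset.card_image_le (s := M.natAbs.primeFactors.powerset)
    (f := fun s => ((∏ p ∈ s, p : ℕ) : ℤ))
  have h2 := Finset.card_image_le (s := M.natAbs.primeFactors.powerset)
    (f := fun s => -((∏ p ∈ s, p : ℕ) : ℤ))
  rw [Finset.card_powerset] at h1 h2
  omega

theorem mem_Sq {M s : ℤ} (hs : Squarefree s) (h : ∀ l : ℕ, l.Prime → (l : ℤ) ∣ s → (l : ℤ) ∣ M)
    (hM : M ≠ 0) : s ∈ Sq M := by
  have hs' : Squarefree s.natAbs := Int.squarefree_natAbs.2 hs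
  have hsub : s.natAbs.primeFactors ∈ M.natAbs.primeFactors.powerset := by
    rw [Finset.mem_powerset]
    intro l hl
    have hl' := Nat.mem_primeFactors.1 hl
    refine Nat.mem_primeFactors.2 ⟨hl'.1, ?_, Int.natAbs_ne_zero.2 hM⟩
    exact Int.natCast_dvd.1 (h l hl'.1 (Int.natCast_dvd.2 hl'.2.1))
  have hprod : ((∏ p ∈ s.natAbs.primeFactors, p : ℕ) : ℤ) = |s| := by
    rw [Nat.prod_primeFactors_of_squarefree hs', Int.abs_eq_natAbs]
  unfold Sq
  rw [Finset.mem_union, Finset.mem_image, Finset.mem_image]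
  rcases abs_choice s with h' | h'
  · left; exact ⟨_, hsub, by rw [hprod, h']⟩
  · right; exact ⟨_, hsub, by rw [hprod, h']; ring⟩

/-- squarefree part of a nonzero integer -/
theorem exists_sqf {n : ℤ} (hn : n ≠ 0) : ∃ s m : ℤ, Squarefree s ∧ m ≠ 0 ∧ n = s * m ^ 2 := by
  obtain ⟨a, b, h, ha⟩ := Nat.sq_mul_squarefree n.natAbs
  have hb : b ≠ 0 := by
    rintro rfl
    apply hn
    rw [← Int.natAbs_eq_zero, ← h]; ring
  rcases Int.natAbs_eq n with h' | h'
  · refine ⟨a, b, ?_, by exact_mod_cast hb, ?_⟩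
    · exact_mod_cast Int.squarefree_natCast.2 ha
    · rw [h', ← h]; push_cast; ring
  · refine ⟨-a, b, ?_, by exact_mod_cast hb, ?_⟩
    · rw [← Int.squarefree_natAbs, Int.natAbs_neg, Int.natAbs_natCast]; exact ha
    · rw [h', ← h]; push_cast; ring

theorem padic_zero {l : ℕ} {n : ℤ} (h : ¬ (l : ℤ) ∣ n) : padicValRat l (n : ℚ) = 0 := by
  rw [padicValRat.of_int]
  have : padicValInt l n = 0 := padicValInt.eq_zero_of_not_dvd h
  rw [this]; rfl

theorem padic_one {l : ℕ} [hl : Fact l.Prime] {s : ℤ} (hs : Squarefree s) (h : (l : ℤ) ∣ s) :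
    padicValRat l (s : ℚ) = 1 := by
  have hs0 : s ≠ 0 := hs.ne_zero
  rw [padicValRat.of_int]
  have h1 : 1 ≤ padicValInt l s := by
    rcases Nat.eq_zero_or_pos (padicValInt l s) with h0 | h0
    · exfalso
      rcases (padicValInt_dvd_iff 1 s).1 (by simpa using h) with h2 | h2
      · exact hs0 h2
      · omega
    · exact h0
  have h2 : ¬ 2 ≤ padicValInt l s := by
    intro h2
    have h3 : (l : ℤ) ^ 2 ∣ s := (padicValInt_dvd_iff 2 s).2 (Or.inr h2)
    have h4 := hs l (by rwa [sq] at h3)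
    exact (Nat.prime_iff_prime_int.1 hl.out).not_isUnit h4
  have : padicValInt l s = 1 := by omega
  rw [this]; rfl

/-- **Classes**: `x - e` is a square up to a squarefree integer composed of bad primes. -/
theorem cls {D e e' e'' M : ℤ} (hD : D ≠ 0) (hM : M ≠ 0) (h1 : D ∣ M) (h2 : e - e' ∣ M)
    (h3 : e - e'' ∣ M) {x y : ℚ} (hy : y ≠ 0)
    (hc : (D : ℚ) * y ^ 2 = (x - e) * ((x - e') * (x - e''))) :
    ∃ s ∈ Sq M, ∃ w : ℚ, w ≠ 0 ∧ x - e = s * w ^ 2 := by
  have hDq : (D : ℚ) ≠ 0 := by exact_mod_cast hD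
  obtain ⟨p, hp⟩ : ∃ p : ℤ, p = x.num := ⟨_, rfl⟩
  obtain ⟨q, hq⟩ : ∃ q : ℤ, q = x.den := ⟨_, rfl⟩
  have hqpos : 0 < q := by rw [hq]; exact_mod_cast x.den_pos
  have hxq : x = p / q := by rw [hp, hq]; exact_mod_cast (Rat.num_div_den x).symm
  have hqq : (q : ℚ) ≠ 0 := by exact_mod_cast hqpos.ne'
  have hpq : IsCoprime p q := by
    rw [hp, hq, Int.isCoprime_iff_gcd_eq_one]
    simpa [Int.gcd, Nat.Coprime] using x.reduced
  have hne : (x - e) * ((x - e') * (x - e'')) ≠ 0 := by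
    rw [← hc]; exact mul_ne_zero hDq (pow_ne_zero _ hy)
  obtain ⟨A, hA⟩ : ∃ A : ℤ, A = p - e * q := ⟨_, rfl⟩
  obtain ⟨A', hA'⟩ : ∃ A : ℤ, A = p - e' * q := ⟨_, rfl⟩
  obtain ⟨A'', hA''⟩ : ∃ A : ℤ, A = p - e'' * q := ⟨_, rfl⟩
  have xA : x - e = A / q := by rw [hA, hxq]; push_cast; field_simp
  have xA' : x - e' = A' / q := by rw [hA', hxq]; push_cast; field_simp
  have xA'' : x - e'' = A'' / q := by rw [hA'', hxq]; push_cast; field_simp
  have nA : (A : ℚ) ≠ 0 := by
    intro h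
    exact left_ne_zero_of_mul hne (by rw [xA, h, zero_div])
  have nA' : (A' : ℚ) ≠ 0 := by
    intro h
    exact left_ne_zero_of_mul (right_ne_zero_of_mul hne) (by rw [xA', h, zero_div])
  have nA'' : (A'' : ℚ) ≠ 0 := by
    intro h
    exact right_ne_zero_of_mul (right_ne_zero_of_mul hne) (by rw [xA'', h, zero_div])
  have hn : A * q ≠ 0 := mul_ne_zero (by exact_mod_cast nA) hqpos.ne'
  obtain ⟨s, m, hs, hm, hsm⟩ := exists_sqf hn
  have hmq : (m : ℚ) ≠ 0 := by exact_mod_cast hm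
  have hsq : (s : ℚ) ≠ 0 := by exact_mod_cast hs.ne_zero
  have hsmq : (A : ℚ) * q = s * m ^ 2 := by exact_mod_cast hsm
  refine ⟨s, mem_Sq hs ?_ hM, m / q, div_ne_zero hmq hqq, ?_⟩
  · intro l hl hls
    by_contra hlM
    have : Fact l.Prime := ⟨hl⟩
    have hlp : Prime (l : ℤ) := Nat.prime_iff_prime_int.1 hl
    have hlD : ¬ (l : ℤ) ∣ D := fun h => hlM (h.trans h1)
    -- valuations
    have heq : (D : ℚ) * (y * q ^ 2) ^ 2 = (s : ℚ) * m ^ 2 * ((A' * A'' : ℤ) : ℚ) := by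
      have : (D : ℚ) * (y * q ^ 2) ^ 2 = (D * y ^ 2) * q ^ 4 := by ring
      rw [this, hc, xA, xA', xA'', ← hsmq]
      push_cast
      field_simp
    have hv := congrArg (padicValRat l) heq
    rw [padicValRat.mul hDq (pow_ne_zero _ (mul_ne_zero hy (pow_ne_zero _ hqq))),
      padicValRat.pow,
      padicValRat.mul (mul_ne_zero hsq (pow_ne_zero _ hmq))
        (by push_cast; exact mul_ne_zero nA' nA''),
      padicValRat.mul hsq (pow_ne_zero _ hmq), padicValRat.pow, padic_zero hlD,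
      padic_one hs hls] at hv
    have hdv : (l : ℤ) ∣ A' * A'' := by
      by_contra hnd
      rw [padic_zero hnd] at hv
      push_cast at hv
      omega
    have hdv2 : (l : ℤ) ∣ A * q := by
      rw [hsm]; exact hls.mul_right _
    have nq : ¬ (l : ℤ) ∣ q := by
      intro h
      have hp' : ∀ k : ℤ, (l : ℤ) ∣ p - k * q → False := by
        intro k hk
        have : (l : ℤ) ∣ p := by
          have := dvd_add hk (h.mul_left k)
          simpa using this
        exact hlp.not_isUnit (hpq.isUnit_of_dvd' this h)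
      rcases hlp.dvd_or_dvd hdv with h' | h'
      · exact hp' e' (by rw [← hA']; exact h')
      · exact hp' e'' (by rw [← hA'']; exact h')
    have hlA : (l : ℤ) ∣ A := (hlp.dvd_or_dvd hdv2).resolve_right nq
    rcases hlp.dvd_or_dvd hdv with h' | h'
    · have : (l : ℤ) ∣ (e - e') * q := by
        have := dvd_sub h' hlA
        rw [hA, hA'] at this
        have e1 : p - e' * q - (p - e * q) = (e - e') * q := by ring
        rwa [e1] at this
      exact hlM (((hlp.dvd_or_dvd this).resolve_right nq).trans h2)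
    · have : (l : ℤ) ∣ (e - e'') * q := by
        have := dvd_sub h' hlA
        rw [hA, hA''] at this
        have e1 : p - e'' * q - (p - e * q) = (e - e'') * q := by ring
        rwa [e1] at this
      exact hlM (((hlp.dvd_or_dvd this).resolve_right nq).trans h3)
  · rw [xA, div_pow, mul_div_assoc', ← hsmq]
    field_simp

/-- `K ^ ω(n) ≤ C n ^ ε` -/
theorem pow_omega_le (K : ℕ) {ε : ℝ} (hε : 0 < ε) :
    ∃ C : ℝ, 1 ≤ C ∧ ∀ n : ℕ, n ≠ 0 → (K : ℝ) ^ n.primeFactors.card ≤ C * (n : ℝ) ^ ε := by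
  obtain ⟨P, hP⟩ : ∃ P : ℕ, ∀ p : ℕ, P ≤ p → (K : ℝ) ≤ (p : ℝ) ^ ε := by
    have h1 : Filter.Tendsto (fun p : ℕ => (p : ℝ) ^ ε) Filter.atTop Filter.atTop :=
      (tendsto_rpow_atTop hε).comp tendsto_natCast_atTop_atTop
    obtain ⟨P, hP⟩ := Filter.eventually_atTop.1 (h1.eventually_ge_atTop (K : ℝ))
    exact ⟨P, hP⟩
  have hK1 : (1 : ℝ) ≤ (K : ℝ) + 1 := by
    have : (0 : ℝ) ≤ K := Nat.cast_nonneg _
    linarith
  refine ⟨((K : ℝ) + 1) ^ P, one_le_pow₀ hK1, fun n hn => ?_⟩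
  have h1 : (K : ℝ) ^ n.primeFactors.card =
      ∏ p ∈ n.primeFactors, (K : ℝ) := by rw [Finset.prod_const]
  have h2 : ∏ p ∈ n.primeFactors, (K : ℝ) ≤
      ∏ p ∈ n.primeFactors, ((if p < P then ((K : ℝ) + 1) else 1) * (p : ℝ) ^ ε) := by
    refine Finset.prod_le_prod (fun _ _ => Nat.cast_nonneg _) (fun p hp => ?_)
    have hp1 : (1 : ℝ) ≤ (p : ℝ) ^ ε :=
      Real.one_le_rpow (by exact_mod_cast (Nat.prime_of_mem_primeFactors hp).one_lt.le) hε.le
    split_ifs with h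
    · nlinarith
    · rw [one_mul]; exact hP p (not_lt.1 h)
  have h3 : ∏ p ∈ n.primeFactors, (if p < P then ((K : ℝ) + 1) else 1) ≤ ((K : ℝ) + 1) ^ P := by
    rw [Finset.prod_ite, Finset.prod_const, Finset.prod_const_one, mul_one]
    refine pow_le_pow_right₀ hK1 ?_
    have : (n.primeFactors.filter (fun p => p < P)) ⊆ Finset.range P := by
      intro p hp
      exact Finset.mem_range.2 (Finset.mem_filter.1 hp).2
    simpa using Finset.card_le_card this
  have h4 : ∏ p ∈ n.primeFactors, (p : ℝ) ^ ε ≤ (n : ℝ) ^ ε := by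
    rw [Real.finsetProd_rpow _ _ (fun p _ => Nat.cast_nonneg p)]
    refine Real.rpow_le_rpow (Finset.prod_nonneg fun p _ => Nat.cast_nonneg p) ?_ hε.le
    have h5 : (∏ p ∈ n.primeFactors, p) ≤ n := Nat.le_of_dvd (Nat.pos_of_ne_zero hn)
      (Nat.prod_primeFactors_dvd n)
    rw [← Nat.cast_prod]
    exact Nat.cast_le.2 h5
  rw [h1]
  refine h2.trans ?_
  rw [Finset.prod_mul_distrib]
  exact mul_le_mul h3 h4 (Finset.prod_nonneg fun p _ => Real.rpow_nonneg (Nat.cast_nonneg p) _)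
    (by positivity)

end Pool.Agent.Helper57.PH
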