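import Pool.Agent.Helper57.PH.Descent

/-!
# PH: few points of bounded height on every quadratic twist
-/

set_option autoImplicit false

namespace Pool.Agent.Helper57.PH

variable {α β : ℤ}

/-- number of points of height at most `n` -/
noncomputable def NN (α β D : ℤ) (n : ℕ) : ℕ := (S (-(α + β)) (α * β) D n).ncard

/-- **The recursion.** -/
theorem recursion (hα : α ≠ 0) (hβ : β ≠ 0) (hαβ : α ≠ β) : ∃ C : ℕ, 1 ≤ C ∧
    ∀ (D : ℤ), D ≠ 0 → ∀ n : ℕ, NN α β D n ≤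
      (Sq (bad α β D)).card ^ 2 * (1 + 2 * NN α β D (Nat.sqrt (C * n))) := by
  classical
  obtain ⟨C, hC1, hC⟩ := descent hα hβ hαβ
  refine ⟨C, hC1, fun D hD n => ?_⟩
  have hDq : (D : ℚ) ≠ 0 := by exact_mod_cast hD
  set F : Finset ℚ := (finite_S (-(α + β)) (α * β) D n).toFinset with hF
  set U : Finset ℚ := (finite_S (-(α + β)) (α * β) D (Nat.sqrt (C * n))).toFinset with hU
  have cF : NN α β D n = F.card := Set.ncard_eq_toFinset_card _ _
  have cU : NN α β D (Nat.sqrt (C * n)) = U.card := Set.ncard_eq_toFinset_card _ _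
  have hmF : ∀ x, x ∈ F → Pt (-(α + β)) (α * β) D x ∧ ht x ≤ n := by
    intro x hx
    rw [hF, Set.Finite.mem_toFinset] at hx
    exact hx
  have hcl : ∀ x : ℚ, ∃ c : ℤ × ℤ, x ∈ F → c ∈ (Sq (bad α β D)) ×ˢ (Sq (bad α β D)) ∧
      ∃ w w' : ℚ, w ≠ 0 ∧ w' ≠ 0 ∧ x = c.1 * w ^ 2 ∧ x - α = c.2 * w' ^ 2 := by
    intro x
    by_cases hx : x ∈ F
    · obtain ⟨c, h⟩ := class_of hα hβ hαβ hD (hmF x hx).1
      exact ⟨c, fun _ => h⟩
    · exact ⟨(0, 0), fun h => absurd h hx⟩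
  choose cl hcl using hcl
  rw [cF, cU]
  have hfib : ∀ c ∈ F.image cl, (F.filter (fun x => cl x = c)).card ≤ 1 + 2 * U.card := by
    intro c _
    set G := F.filter (fun x => cl x = c) with hG
    rcases G.eq_empty_or_nonempty with h0 | ⟨x0, hx0⟩
    · rw [h0]; simp
    have hx0F : x0 ∈ F := (Finset.mem_filter.1 hx0).1
    have hx0c : cl x0 = c := (Finset.mem_filter.1 hx0).2
    have hu : ∀ x : ℚ, ∃ u : ℚ, x ∈ G.erase x0 → u ∈ U ∧
        (x0 - dup (-(α + β)) (α * β) u) ^ 2 * x ^ 2 +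
          (-2 * ((x0 + dup (-(α + β)) (α * β) u) * (x0 * dup (-(α + β)) (α * β) u + α * β) -
            2 * (α + β) * (x0 * dup (-(α + β)) (α * β) u))) * x +
          (x0 * dup (-(α + β)) (α * β) u - α * β) ^ 2 = 0 := by
      intro x
      by_cases hx : x ∈ G.erase x0
      · have hxG := Finset.mem_erase.1 hx
        have hxF : x ∈ F := (Finset.mem_filter.1 hxG.2).1
        have hxc : cl x = c := (Finset.mem_filter.1 hxG.2).2
        obtain ⟨u, hu, he⟩ := hC D hD n x x0 c hxG.1 (hmF x hxF).1 (hmF x0 hx0F).1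
          (hmF x hxF).2 (hmF x0 hx0F).2 (by rw [← hxc]; exact (hcl x hxF).2)
          (by rw [← hx0c]; exact (hcl x0 hx0F).2)
        exact ⟨u, fun _ => ⟨by rw [hU, Set.Finite.mem_toFinset]; exact hu, he⟩⟩
      · exact ⟨0, fun h => absurd h hx⟩
    choose uu huu using hu
    have h1 : (G.erase x0).card ≤ 2 * ((G.erase x0).image uu).card := by
      refine Finset.card_le_mul_card_image _ 2 ?_
      intro u _
      refine card_le_two (A := (x0 - dup (-(α + β)) (α * β) u) ^ 2)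
        (B := (-2 * ((x0 + dup (-(α + β)) (α * β) u) * (x0 * dup (-(α + β)) (α * β) u + α * β) -
            2 * (α + β) * (x0 * dup (-(α + β)) (α * β) u))))
        (C := (x0 * dup (-(α + β)) (α * β) u - α * β) ^ 2) ?_ _ ?_
      · by_cases hz : x0 = dup (-(α + β)) (α * β) u
        · right
          rw [← hz]
          obtain ⟨y, hy0, hy⟩ := (hmF x0 hx0F).1
          have : (-2 * ((x0 + x0) * (x0 * x0 + (α : ℚ) * β) - 2 * (α + β) * (x0 * x0))) =
              -4 * (D * y ^ 2) := by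
            rw [hy]; push_cast; ring
          rw [this]
          exact mul_ne_zero (by norm_num) (mul_ne_zero hDq (pow_ne_zero _ hy0))
        · left
          exact pow_ne_zero _ (sub_ne_zero.2 hz)
      · intro x hx
        have hx' := Finset.mem_filter.1 hx
        have := (huu x hx'.1).2
        rw [hx'.2] at this
        exact this
    have h2 : ((G.erase x0).image uu).card ≤ U.card := by
      refine Finset.card_le_card ?_
      intro u hu
      obtain ⟨x, hx, rfl⟩ := Finset.mem_image.1 hu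
      exact (huu x hx).1
    have h3 : G.card = (G.erase x0).card + 1 := (Finset.card_erase_add_one hx0).symm
    rw [h3]
    omega
  have h4 : F.card ≤ (1 + 2 * U.card) * (F.image cl).card :=
    Finset.card_le_mul_card_image _ _ hfib
  have h5 : (F.image cl).card ≤ (Sq (bad α β D)).card ^ 2 := by
    rw [sq, ← Finset.card_product]
    refine Finset.card_le_card ?_
    intro c hc
    obtain ⟨x, hx, rfl⟩ := Finset.mem_image.1 hc
    exact (hcl x hx).1
  calc F.card ≤ (1 + 2 * U.card) * (F.image cl).card := h4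
    _ ≤ (1 + 2 * U.card) * (Sq (bad α β D)).card ^ 2 := Nat.mul_le_mul_left _ h5
    _ = _ := by ring

/-- the recursion iterated `j` times -/
theorem iterate (hα : α ≠ 0) (hβ : β ≠ 0) (hαβ : α ≠ β) : ∃ C : ℝ, 1 ≤ C ∧
    ∀ (D : ℤ), D ≠ 0 → ∀ (j n : ℕ), 1 ≤ n → (NN α β D n : ℝ) ≤
      (3 * ((Sq (bad α β D)).card : ℝ) ^ 2 + 1) ^ j * (9 * C ^ 2 * (n : ℝ) ^ ((2 : ℝ) * (1 / 2) ^ j)) := by
  obtain ⟨C, hC1, hC⟩ := recursion hα hβ hαβ
  have hC1' : (1 : ℝ) ≤ C := by exact_mod_cast hC1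
  refine ⟨C, hC1', fun D hD => ?_⟩
  set K : ℝ := 3 * ((Sq (bad α β D)).card : ℝ) ^ 2 + 1 with hK
  have hK1 : 1 ≤ K := by rw [hK]; nlinarith [sq_nonneg ((Sq (bad α β D)).card : ℝ)]
  -- stronger statement for the induction: heights up to `C * t`
  have key : ∀ (j n : ℕ) (t : ℝ), 1 ≤ t → (n : ℝ) ≤ C * t →
      (NN α β D n : ℝ) ≤ K ^ j * (9 * (C : ℝ) ^ 2 * t ^ ((2 : ℝ) * (1 / 2) ^ j)) := by
    intro j
    induction j with
    | zero =>
      intro n t ht hn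
      have h1 : (NN α β D n : ℝ) ≤ (2 * (n : ℝ) + 1) ^ 2 := by
        exact_mod_cast ncard_S_le (-(α + β)) (α * β) D n
      have hCt : 1 ≤ C * t := by nlinarith
      have h2 : (2 * (n : ℝ) + 1) ^ 2 ≤ (3 * (C * t)) ^ 2 := by
        refine pow_le_pow_left₀ (by positivity) ?_ 2
        linarith
      have h3 : t ^ ((2 : ℝ) * (1 / 2) ^ (0 : ℕ)) = t ^ 2 := by
        rw [pow_zero, mul_one]; exact_mod_cast Real.rpow_natCast t 2
      rw [h3, pow_zero, one_mul]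
      calc (NN α β D n : ℝ) ≤ (3 * (C * t)) ^ 2 := h1.trans h2
        _ = 9 * (C : ℝ) ^ 2 * t ^ 2 := by ring
    | succ j ih =>
      intro n t ht hn
      have ht0 : 0 ≤ t := by linarith
      have hst : 1 ≤ Real.sqrt t := Real.one_le_sqrt.2 ht
      have hm : ((Nat.sqrt (C * n) : ℕ) : ℝ) ≤ C * Real.sqrt t := by
        have h1 : ((Nat.sqrt (C * n) : ℕ) : ℝ) ≤ Real.sqrt ((C * n : ℕ) : ℝ) :=
          Real.nat_sqrt_le_real_sqrt
        refine h1.trans ?_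
        have h2 : ((C * n : ℕ) : ℝ) ≤ (C : ℝ) ^ 2 * t := by
          push_cast
          nlinarith
        calc Real.sqrt ((C * n : ℕ) : ℝ) ≤ Real.sqrt ((C : ℝ) ^ 2 * t) := Real.sqrt_le_sqrt h2
          _ = C * Real.sqrt t := by
            rw [Real.sqrt_mul (by positivity), Real.sqrt_sq (by linarith)]
      have h3 := ih (Nat.sqrt (C * n)) (Real.sqrt t) hst hm
      have h4 : (NN α β D n : ℝ) ≤ ((Sq (bad α β D)).card : ℝ) ^ 2 *
          (1 + 2 * (NN α β D (Nat.sqrt (C * n)) : ℝ)) := by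
        exact_mod_cast hC D hD n
      set V : ℝ := K ^ j * (9 * (C : ℝ) ^ 2 * (Real.sqrt t) ^ ((2 : ℝ) * (1 / 2) ^ j)) with hV
      have hV1 : 1 ≤ V := by
        have e1 : 1 ≤ K ^ j := one_le_pow₀ hK1
        have e2 : 1 ≤ (Real.sqrt t) ^ ((2 : ℝ) * (1 / 2) ^ j) :=
          Real.one_le_rpow hst (by positivity)
        have e3 : 1 ≤ 9 * (C : ℝ) ^ 2 := by nlinarith
        rw [hV]
        calc (1 : ℝ) = 1 * (1 * 1) := by ring
          _ ≤ _ := mul_le_mul e1 (mul_le_mul e3 e2 (by norm_num) (by positivity)) (by norm_num)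
              (by positivity)
      have h5 : (Real.sqrt t) ^ ((2 : ℝ) * (1 / 2) ^ j) = t ^ ((2 : ℝ) * (1 / 2) ^ (j + 1)) := by
        rw [Real.sqrt_eq_rpow, ← Real.rpow_mul ht0]
        congr 1
        rw [pow_succ]; ring
      have h6 : (NN α β D n : ℝ) ≤ K * V := by
        refine h4.trans ?_
        have h7 : 1 + 2 * (NN α β D (Nat.sqrt (C * n)) : ℝ) ≤ 3 * V := by linarith
        calc ((Sq (bad α β D)).card : ℝ) ^ 2 * (1 + 2 * (NN α β D (Nat.sqrt (C * n)) : ℝ))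
            ≤ ((Sq (bad α β D)).card : ℝ) ^ 2 * (3 * V) :=
              mul_le_mul_of_nonneg_left h7 (by positivity)
          _ ≤ K * V := by
              rw [hK]
              nlinarith [sq_nonneg ((Sq (bad α β D)).card : ℝ)]
      refine h6.trans (le_of_eq ?_)
      rw [hV, h5, pow_succ]
      ring
  intro j n hn
  have hn1 : (1 : ℝ) ≤ n := by exact_mod_cast hn
  exact key j n n hn1 (by nlinarith)

/-- **Few points of bounded height on every quadratic twist.** -/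
theorem few_points (hα : α ≠ 0) (hβ : β ≠ 0) (hαβ : α ≠ β) {ε : ℝ} (hε : 0 < ε) :
    ∃ C : ℝ, 1 ≤ C ∧ ∀ (D : ℤ), D ≠ 0 → ∀ n : ℕ, 1 ≤ n →
      (NN α β D n : ℝ) ≤ C * (|D| : ℤ) ^ ε * (n : ℝ) ^ ε := by
  obtain ⟨C, hC1, hC⟩ := iterate hα hβ hαβ
  -- number of steps
  obtain ⟨j, hj⟩ : ∃ j : ℕ, (2 : ℝ) * (1 / 2) ^ j ≤ ε := by
    obtain ⟨j, hj⟩ := exists_pow_lt_of_lt_one (half_pos hε) (by norm_num : (1 / 2 : ℝ) < 1)
    exact ⟨j, by linarith⟩
  obtain ⟨C2, hC2, hC2'⟩ := pow_omega_le (4 ^ j) hε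
  set c0 : ℤ := α * β * (α - β) with hc0
  have hc00 : c0 ≠ 0 := mul_ne_zero (mul_ne_zero hα hβ) (sub_ne_zero.2 hαβ)
  have hc01 : (1 : ℝ) ≤ ((|c0| : ℤ) : ℝ) := by exact_mod_cast Int.one_le_abs hc00
  refine ⟨13 ^ j * (9 * C ^ 2) * (C2 * ((|c0| : ℤ) : ℝ) ^ ε), ?_, ?_⟩
  · have e1 : (1 : ℝ) ≤ 13 ^ j := one_le_pow₀ (by norm_num)
    have e2 : (1 : ℝ) ≤ 9 * C ^ 2 := by nlinarith
    have e3 : (1 : ℝ) ≤ ((|c0| : ℤ) : ℝ) ^ ε := Real.one_le_rpow hc01 hε.le
    calc (1 : ℝ) = 1 * 1 * (1 * 1) := by ring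
      _ ≤ _ := by
        refine mul_le_mul (mul_le_mul e1 e2 (by norm_num) (by positivity))
          (mul_le_mul hC2 e3 (by norm_num) (by positivity)) (by norm_num) (by positivity)
  intro D hD n hn
  have hn1 : (1 : ℝ) ≤ n := by exact_mod_cast hn
  have hM := bad_ne hα hβ hαβ hD
  set w := (bad α β D).natAbs.primeFactors.card with hw
  have h1 := hC D hD j n hn
  have h2 : 3 * ((Sq (bad α β D)).card : ℝ) ^ 2 + 1 ≤ 13 * 4 ^ w := by
    have h3 : ((Sq (bad α β D)).card : ℝ) ≤ 2 * 2 ^ w := by exact_mod_cast card_Sq (bad α β D)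
    have h4 : ((Sq (bad α β D)).card : ℝ) ^ 2 ≤ 4 * 4 ^ w := by
      calc ((Sq (bad α β D)).card : ℝ) ^ 2 ≤ (2 * 2 ^ w) ^ 2 :=
            pow_le_pow_left₀ (Nat.cast_nonneg _) h3 2
        _ = 4 * 4 ^ w := by
          rw [mul_pow, ← pow_mul, mul_comm w 2, pow_mul]; norm_num
    have h5 : (1 : ℝ) ≤ 4 ^ w := one_le_pow₀ (by norm_num)
    linarith
  have h3 : (3 * ((Sq (bad α β D)).card : ℝ) ^ 2 + 1) ^ j ≤
      13 ^ j * (C2 * (((|c0| : ℤ) : ℝ) ^ ε * ((|D| : ℤ) : ℝ) ^ ε)) := by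
    calc (3 * ((Sq (bad α β D)).card : ℝ) ^ 2 + 1) ^ j ≤ (13 * 4 ^ w) ^ j :=
          pow_le_pow_left₀ (by positivity) h2 j
      _ = 13 ^ j * (((4 ^ j : ℕ) : ℝ)) ^ w := by
          rw [mul_pow, ← pow_mul, mul_comm w j, pow_mul]; push_cast; rfl
      _ ≤ 13 ^ j * (C2 * ((bad α β D).natAbs : ℝ) ^ ε) :=
          mul_le_mul_of_nonneg_left (hC2' _ (Int.natAbs_ne_zero.2 hM)) (by positivity)
      _ = 13 ^ j * (C2 * (((|c0| : ℤ) : ℝ) ^ ε * ((|D| : ℤ) : ℝ) ^ ε)) := by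
          have e1 : ((bad α β D).natAbs : ℝ) = ((|c0| : ℤ) : ℝ) * ((|D| : ℤ) : ℝ) := by
            rw [← Int.cast_mul, ← abs_mul, ← Int.cast_natCast, Int.natCast_natAbs]
            congr 2
            rw [hc0, bad]; ring
          rw [e1, Real.mul_rpow (by positivity) (by positivity)]
  have h4 : (n : ℝ) ^ ((2 : ℝ) * (1 / 2) ^ j) ≤ (n : ℝ) ^ ε := Real.rpow_le_rpow_of_exponent_le hn1 hj
  refine h1.trans ?_
  calc (3 * ((Sq (bad α β D)).card : ℝ) ^ 2 + 1) ^ j * (9 * C ^ 2 * (n : ℝ) ^ ((2 : ℝ) * (1 / 2) ^ j))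
      ≤ (13 ^ j * (C2 * (((|c0| : ℤ) : ℝ) ^ ε * ((|D| : ℤ) : ℝ) ^ ε))) * (9 * C ^ 2 * (n : ℝ) ^ ε) :=
        mul_le_mul h3 (mul_le_mul_of_nonneg_left h4 (by positivity)) (by positivity) (by positivity)
    _ = _ := by ring

end Pool.Agent.Helper57.PH
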