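import Pool.Agent.Helper57.PH.Cls

/-!
# PH: the number of points of bounded height on the quadratic twists of an elliptic curve

`#{x : D y² = x (x - α) (x - β), H(x) ≤ n} ≤ C (|D| n)^ε`.
-/

set_option autoImplicit false

namespace Pool.Agent.Helper57.PH

/-- the points of height at most `n` -/
def S (a b D : ℤ) (n : ℕ) : Set ℚ := {x : ℚ | Pt a b D x ∧ ht x ≤ n}

theorem finite_S (a b D : ℤ) (n : ℕ) : (S a b D n).Finite :=
  (finite_ht n).subset fun _ hx => hx.2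

theorem ncard_S_le (a b D : ℤ) (n : ℕ) : (S a b D n).ncard ≤ (2 * n + 1) ^ 2 :=
  (Set.ncard_le_ncard (fun _ hx => hx.2) (finite_ht n)).trans (ncard_ht n)

/-- bounds for the coefficients of the quadratic equation of the sum and the difference -/
theorem sum_diff (a b : ℤ) : ∃ C : ℕ, ∀ (n : ℕ) (x x' z z' : ℚ), x ≠ x' → ht x ≤ n → ht x' ≤ n →
    (x - x') ^ 2 * (z + z') = 2 * ((x + x') * (x * x' + b) + 2 * a * (x * x')) →
    (x - x') ^ 2 * (z * z') = (x * x' - b) ^ 2 → ht z * ht z' ≤ C * n ^ 4 := by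
  refine ⟨2 * (4 + (1 + b.natAbs) ^ 2 + 4 * (1 + b.natAbs) + 4 * a.natAbs), ?_⟩
  intro n x x' z z' hne hx hx' h1 h2
  obtain ⟨p, hp⟩ : ∃ p : ℤ, p = x.num := ⟨_, rfl⟩
  obtain ⟨q, hq⟩ : ∃ q : ℤ, q = x.den := ⟨_, rfl⟩
  obtain ⟨p', hp'⟩ : ∃ p : ℤ, p = x'.num := ⟨_, rfl⟩
  obtain ⟨q', hq'⟩ : ∃ q : ℤ, q = x'.den := ⟨_, rfl⟩
  have hqpos : 0 < q := by rw [hq]; exact_mod_cast x.den_pos
  have hqpos' : 0 < q' := by rw [hq']; exact_mod_cast x'.den_pos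
  have hxq : x = p / q := by rw [hp, hq]; exact_mod_cast (Rat.num_div_den x).symm
  have hxq' : x' = p' / q' := by rw [hp', hq']; exact_mod_cast (Rat.num_div_den x').symm
  have hqq : (q : ℚ) ≠ 0 := by exact_mod_cast hqpos.ne'
  have hqq' : (q' : ℚ) ≠ 0 := by exact_mod_cast hqpos'.ne'
  have bp : |p| ≤ n := by rw [hp]; exact (num_le_ht x).trans (by exact_mod_cast hx)
  have bq : |q| ≤ n := by
    rw [abs_of_pos hqpos, hq]; exact (den_le_ht x).trans (by exact_mod_cast hx)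
  have bp' : |p'| ≤ n := by rw [hp']; exact (num_le_ht x').trans (by exact_mod_cast hx')
  have bq' : |q'| ≤ n := by
    rw [abs_of_pos hqpos', hq']; exact (den_le_ht x').trans (by exact_mod_cast hx')
  have n0 : (0 : ℤ) ≤ n := Nat.cast_nonneg n
  have mb : ∀ {u v : ℤ}, |u| ≤ n → |v| ≤ n → |u * v| ≤ (n : ℤ) ^ 2 := by
    intro u v hu hv
    rw [abs_mul, sq]
    exact mul_le_mul hu hv (abs_nonneg _) n0
  have n2 : (0 : ℤ) ≤ (n : ℤ) ^ 2 := by positivity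
  have n4 : (0 : ℤ) ≤ (n : ℤ) ^ 4 := by positivity
  have s1 : |p * q'| ≤ (n : ℤ) ^ 2 := mb bp bq'
  have s2 : |p' * q| ≤ (n : ℤ) ^ 2 := mb bp' bq
  have s3 : |p * p'| ≤ (n : ℤ) ^ 2 := mb bp bp'
  have s4 : |q * q'| ≤ (n : ℤ) ^ 2 := mb bq bq'
  have s5 : |b * (q * q')| ≤ |b| * (n : ℤ) ^ 2 := by
    rw [abs_mul]; exact mul_le_mul_of_nonneg_left s4 (abs_nonneg _)
  obtain ⟨A, hA⟩ : ∃ A : ℤ, A = (p * q' - p' * q) ^ 2 := ⟨_, rfl⟩
  obtain ⟨B, hB⟩ : ∃ B : ℤ, B = 2 * ((p * q' + p' * q) * (p * p' + b * (q * q')) +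
    2 * a * ((p * p') * (q * q'))) := ⟨_, rfl⟩
  obtain ⟨T, hT⟩ : ∃ T : ℤ, T = (p * p' - b * (q * q')) ^ 2 := ⟨_, rfl⟩
  have hA0 : A ≠ 0 := by
    rw [hA]
    refine pow_ne_zero _ ?_
    intro h
    apply hne
    rw [hxq, hxq', div_eq_div_iff hqq hqq']
    have : p * q' = p' * q := sub_eq_zero.1 h
    exact_mod_cast this
  have e1 : (A : ℚ) * (z + z') = (B : ℤ) := by
    have : (A : ℚ) = (x - x') ^ 2 * (q * q') ^ 2 := by
      rw [hA, hxq, hxq']; push_cast; field_simp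
    rw [this]
    calc (x - x') ^ 2 * (q * q') ^ 2 * (z + z') = ((x - x') ^ 2 * (z + z')) * (q * q') ^ 2 := by ring
      _ = _ := by
        rw [h1, hB, hxq, hxq']; push_cast; field_simp
  have e2 : (A : ℚ) * (z * z') = (T : ℤ) := by
    have : (A : ℚ) = (x - x') ^ 2 * (q * q') ^ 2 := by
      rw [hA, hxq, hxq']; push_cast; field_simp
    rw [this]
    calc (x - x') ^ 2 * (q * q') ^ 2 * (z * z') = ((x - x') ^ 2 * (z * z')) * (q * q') ^ 2 := by ring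
      _ = _ := by
        rw [h2, hT, hxq, hxq']; push_cast; field_simp
  obtain ⟨K, hK⟩ : ∃ K : ℤ, K = 4 + (1 + |b|) ^ 2 + 4 * (1 + |b|) + 4 * |a| := ⟨_, rfl⟩
  have nb : 0 ≤ |b| := abs_nonneg b
  have na : 0 ≤ |a| := abs_nonneg a
  have bA : |A| ≤ K * (n : ℤ) ^ 4 := by
    have h3 : |p * q' - p' * q| ≤ 2 * (n : ℤ) ^ 2 := by
      have := abs_sub (p * q') (p' * q)
      linarith
    rw [hA, abs_pow]
    calc |p * q' - p' * q| ^ 2 ≤ (2 * (n : ℤ) ^ 2) ^ 2 := pow_le_pow_left₀ (abs_nonneg _) h3 2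
      _ = 4 * (n : ℤ) ^ 4 := by ring
      _ ≤ K * (n : ℤ) ^ 4 := by
        refine mul_le_mul_of_nonneg_right ?_ n4
        rw [hK]
        have : 0 ≤ (1 + |b|) ^ 2 := by positivity
        linarith
  have bT : |T| ≤ K * (n : ℤ) ^ 4 := by
    have h3 : |p * p' - b * (q * q')| ≤ (1 + |b|) * (n : ℤ) ^ 2 := by
      have := abs_sub (p * p') (b * (q * q'))
      linarith
    rw [hT, abs_pow]
    calc |p * p' - b * (q * q')| ^ 2 ≤ ((1 + |b|) * (n : ℤ) ^ 2) ^ 2 :=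
          pow_le_pow_left₀ (abs_nonneg _) h3 2
      _ = (1 + |b|) ^ 2 * (n : ℤ) ^ 4 := by ring
      _ ≤ K * (n : ℤ) ^ 4 := by
        refine mul_le_mul_of_nonneg_right ?_ n4
        rw [hK]
        linarith
  have bB : |B| ≤ K * (n : ℤ) ^ 4 := by
    have h3 : |p * q' + p' * q| ≤ 2 * (n : ℤ) ^ 2 := by
      have := abs_add_le (p * q') (p' * q)
      linarith
    have h4 : |p * p' + b * (q * q')| ≤ (1 + |b|) * (n : ℤ) ^ 2 := by
      have := abs_add_le (p * p') (b * (q * q'))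
      linarith
    have h5 : |(p * q' + p' * q) * (p * p' + b * (q * q'))| ≤ 2 * (1 + |b|) * (n : ℤ) ^ 4 := by
      rw [abs_mul]
      calc |p * q' + p' * q| * |p * p' + b * (q * q')|
          ≤ (2 * (n : ℤ) ^ 2) * ((1 + |b|) * (n : ℤ) ^ 2) :=
            mul_le_mul h3 h4 (abs_nonneg _) (by positivity)
        _ = 2 * (1 + |b|) * (n : ℤ) ^ 4 := by ring
    have h6 : |2 * a * ((p * p') * (q * q'))| ≤ 2 * |a| * (n : ℤ) ^ 4 := by
      rw [abs_mul, abs_mul, abs_mul]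
      have : |p * p'| * |q * q'| ≤ (n : ℤ) ^ 2 * (n : ℤ) ^ 2 :=
        mul_le_mul s3 s4 (abs_nonneg _) n2
      have h7 : |(2 : ℤ)| = 2 := by norm_num
      rw [h7]
      calc 2 * |a| * (|p * p'| * |q * q'|) ≤ 2 * |a| * ((n : ℤ) ^ 2 * (n : ℤ) ^ 2) :=
            mul_le_mul_of_nonneg_left this (by positivity)
        _ = 2 * |a| * (n : ℤ) ^ 4 := by ring
    rw [hB, abs_mul]
    have h7 : |(2 : ℤ)| = 2 := by norm_num
    rw [h7]
    calc 2 * |(p * q' + p' * q) * (p * p' + b * (q * q')) + 2 * a * ((p * p') * (q * q'))|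
        ≤ 2 * (2 * (1 + |b|) * (n : ℤ) ^ 4 + 2 * |a| * (n : ℤ) ^ 4) :=
          mul_le_mul_of_nonneg_left ((abs_add_le _ _).trans (add_le_add h5 h6)) (by norm_num)
      _ = (4 * (1 + |b|) + 4 * |a|) * (n : ℤ) ^ 4 := by ring
      _ ≤ K * (n : ℤ) ^ 4 := by
        refine mul_le_mul_of_nonneg_right ?_ n4
        rw [hK]
        have : 0 ≤ (1 + |b|) ^ 2 := by positivity
        linarith
  have hfin := ht_mul_ht_le hA0 bA bB bT e1 e2
  have hK' : (((4 + (1 + b.natAbs) ^ 2 + 4 * (1 + b.natAbs) + 4 * a.natAbs : ℕ)) : ℤ) = K := by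
    rw [hK]; push_cast; rfl
  have : ((ht z * ht z' : ℕ) : ℤ) ≤
      ((2 * (4 + (1 + b.natAbs) ^ 2 + 4 * (1 + b.natAbs) + 4 * a.natAbs) * n ^ 4 : ℕ) : ℤ) := by
    rw [Nat.cast_mul, Nat.cast_mul, Nat.cast_mul, hK']
    push_cast
    linarith
  exact_mod_cast this

/-- a quadratic equation with three solutions is trivial -/
theorem card_le_two {A B C : ℚ} (h : A ≠ 0 ∨ B ≠ 0) (s : Finset ℚ)
    (hs : ∀ x ∈ s, A * x ^ 2 + B * x + C = 0) : s.card ≤ 2 := by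
  by_contra hcon
  obtain ⟨x, hx, y, hy, z, hz, hxy, hxz, hyz⟩ := Finset.two_lt_card.1 (not_le.1 hcon)
  have h1 := hs x hx
  have h2 := hs y hy
  have h3 := hs z hz
  have e1 : A * (x + y) + B = 0 := by
    have : (x - y) * (A * (x + y) + B) = 0 := by linear_combination h1 - h2
    exact (mul_eq_zero.1 this).resolve_left (sub_ne_zero.2 hxy)
  have e2 : A * (x + z) + B = 0 := by
    have : (x - z) * (A * (x + z) + B) = 0 := by linear_combination h1 - h3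
    exact (mul_eq_zero.1 this).resolve_left (sub_ne_zero.2 hxz)
  have e3 : A = 0 := by
    have : (y - z) * A = 0 := by linear_combination e1 - e2
    exact (mul_eq_zero.1 this).resolve_left (sub_ne_zero.2 hyz)
  have e4 : B = 0 := by rw [e3] at e1; linarith
  exact h.elim (fun h => h e3) (fun h => h e4)

section Count

variable {α β : ℤ}

/-- the product of the bad primes -/
def bad (α β D : ℤ) : ℤ := D * (α * β * (α - β))

theorem bad_ne (hα : α ≠ 0) (hβ : β ≠ 0) (hαβ : α ≠ β) {D : ℤ} (hD : D ≠ 0) : bad α β D ≠ 0 :=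
  mul_ne_zero hD (mul_ne_zero (mul_ne_zero hα hβ) (sub_ne_zero.2 hαβ))

/-- the class of a point -/
theorem class_of (hα : α ≠ 0) (hβ : β ≠ 0) (hαβ : α ≠ β) {D : ℤ} (hD : D ≠ 0) {x : ℚ}
    (hx : Pt (-(α + β)) (α * β) D x) :
    ∃ c : ℤ × ℤ, c ∈ (Sq (bad α β D)) ×ˢ (Sq (bad α β D)) ∧
      ∃ w w' : ℚ, w ≠ 0 ∧ w' ≠ 0 ∧ x = c.1 * w ^ 2 ∧ x - α = c.2 * w' ^ 2 := by
  obtain ⟨y, hy, hc⟩ := hx
  have hM := bad_ne hα hβ hαβ hD
  have d1 : D ∣ bad α β D := dvd_mul_right _ _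
  have d2 : α ∣ bad α β D := ⟨D * β * (α - β), by unfold bad; ring⟩
  have d3 : β ∣ bad α β D := ⟨D * α * (α - β), by unfold bad; ring⟩
  have d4 : α - β ∣ bad α β D := ⟨D * α * β, by unfold bad; ring⟩
  obtain ⟨s, hs, w, hw, h1⟩ := cls (e := 0) (e' := α) (e'' := β) hD hM d1
    (by rw [zero_sub]; exact (neg_dvd).2 d2) (by rw [zero_sub]; exact (neg_dvd).2 d3) hy
    (by rw [hc]; push_cast; ring)
  obtain ⟨s', hs', w', hw', h1'⟩ := cls (e := α) (e' := 0) (e'' := β) hD hM d1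
    (by rw [sub_zero]; exact d2) d4 hy
    (by rw [hc]; push_cast; ring)
  refine ⟨(s, s'), Finset.mem_product.2 ⟨hs, hs'⟩, w, w', hw, hw', ?_, h1'⟩
  rw [← h1]; push_cast; ring

/-- **Descent step**: two points in one class and of height at most `n` are linked, by a quadratic
equation, through a point of height `O(√n)`. -/
theorem descent (hα : α ≠ 0) (hβ : β ≠ 0) (hαβ : α ≠ β) : ∃ C : ℕ, 1 ≤ C ∧
    ∀ (D : ℤ), D ≠ 0 → ∀ (n : ℕ) (x x' : ℚ) (c : ℤ × ℤ), x ≠ x' →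
      Pt (-(α + β)) (α * β) D x → Pt (-(α + β)) (α * β) D x' → ht x ≤ n → ht x' ≤ n →
      (∃ w w' : ℚ, w ≠ 0 ∧ w' ≠ 0 ∧ x = c.1 * w ^ 2 ∧ x - α = c.2 * w' ^ 2) →
      (∃ w w' : ℚ, w ≠ 0 ∧ w' ≠ 0 ∧ x' = c.1 * w ^ 2 ∧ x' - α = c.2 * w' ^ 2) →
      ∃ u, u ∈ Pool.Agent.Helper57.PH.S (-(α + β)) (α * β) D (Nat.sqrt (C * n)) ∧
        (x' - dup (-(α + β)) (α * β) u) ^ 2 * x ^ 2 +
          (-2 * ((x' + dup (-(α + β)) (α * β) u) * (x' * dup (-(α + β)) (α * β) u + α * β) -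
            2 * (α + β) * (x' * dup (-(α + β)) (α * β) u))) * x +
          (x' * dup (-(α + β)) (α * β) u - α * β) ^ 2 = 0 := by
  obtain ⟨C0, hC0⟩ := sum_diff (-(α + β)) (α * β)
  have hb : α * β ≠ 0 := mul_ne_zero hα hβ
  have hd : (-(α + β)) ^ 2 - 4 * (α * β) ≠ 0 := by
    have : (-(α + β)) ^ 2 - 4 * (α * β) = (α - β) ^ 2 := by ring
    rw [this]
    exact pow_ne_zero _ (sub_ne_zero.2 hαβ)
  obtain ⟨C1, hC1⟩ := ht_dup (-(α + β)) (α * β) hb hd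
  refine ⟨C1 ^ 2 * C0 + 1, Nat.le_add_left _ _, ?_⟩
  intro D hD n x x' c hne hx hx' hn hn' hcx hcx'
  obtain ⟨w, w1, hw, hw1, e1, e2⟩ := hcx
  obtain ⟨w', w1', hw', hw1', e1', e2'⟩ := hcx'
  have hDq : (D : ℚ) ≠ 0 := by exact_mod_cast hD
  obtain ⟨y, hy0, hy⟩ := hx
  obtain ⟨y', hy0', hy'⟩ := hx'
  -- the first factors are nonzero
  have hc1 : (c.1 : ℚ) ≠ 0 := by
    intro h
    have hx0 : x = 0 := by rw [e1, h]; ring
    rw [hx0, zero_mul] at hy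
    exact mul_ne_zero hDq (pow_ne_zero _ hy0) hy
  have hc2 : (c.2 : ℚ) ≠ 0 := by
    intro h
    have hx0 : x - α = 0 := by rw [e2, h]; ring
    have : x * (x ^ 2 + ((-(α + β) : ℤ) : ℚ) * x + ((α * β : ℤ) : ℚ)) = x * ((x - α) * (x - β)) := by
      push_cast; ring
    rw [this, hx0, zero_mul, mul_zero] at hy
    exact mul_ne_zero hDq (pow_ne_zero _ hy0) hy
  have hb1 : x - β = D * c.1 * c.2 * (y / (c.1 * c.2 * w * w1)) ^ 2 := by
    have h3 : (c.1 * w ^ 2) * ((c.2 * w1 ^ 2) * (x - β)) = D * y ^ 2 := by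
      rw [hy, ← e1, ← e2]; push_cast; ring
    have h4 : x - β = D * y ^ 2 / ((c.1 * w ^ 2) * (c.2 * w1 ^ 2)) := by
      rw [← h3]; field_simp
    rw [h4]; field_simp
  have hb1' : x' - β = D * c.1 * c.2 * (y' / (c.1 * c.2 * w' * w1')) ^ 2 := by
    have h3 : (c.1 * w' ^ 2) * ((c.2 * w1' ^ 2) * (x' - β)) = D * y' ^ 2 := by
      rw [hy', ← e1', ← e2']; push_cast; ring
    have h4 : x' - β = D * y' ^ 2 / ((c.1 * w' ^ 2) * (c.2 * w1' ^ 2)) := by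
      rw [← h3]; field_simp
    rw [h4]; field_simp
  obtain ⟨u, v, hu, hv, hs, hp⟩ := halve hα hβ hαβ hD hne ⟨y, hy0, hy⟩ ⟨y', hy0', hy'⟩
    (w0 := c.1 * w * w') (w1 := c.2 * w1 * w1')
    (w2 := D * c.1 * c.2 * (y / (c.1 * c.2 * w * w1)) * (y' / (c.1 * c.2 * w' * w1')))
    (by rw [e1, e1']; ring) (by rw [e2, e2']; ring) (by rw [hb1, hb1']; ring)
  have hh := hC0 n x x' _ _ hne hn hn' (by rw [hs]; push_cast; ring) (by rw [hp]; push_cast; ring)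
  have nz : ∀ {u : ℚ}, Pt (-(α + β)) (α * β) D u →
      u * (u ^ 2 + ((-(α + β) : ℤ) : ℚ) * u + ((α * β : ℤ) : ℚ)) ≠ 0 := by
    rintro u ⟨t, ht, hc⟩
    rw [← hc]
    exact mul_ne_zero hDq (pow_ne_zero _ ht)
  have hu1 := hC1 u (nz hu)
  have hv1 := hC1 v (nz hv)
  -- one of the two is small
  have h4 : (ht u * ht v) ^ 4 ≤ (C1 ^ 2 * C0) * n ^ 4 := by
    calc (ht u * ht v) ^ 4 = ht u ^ 4 * ht v ^ 4 := by ring
      _ ≤ (C1 * ht (dup (-(α + β)) (α * β) u)) * (C1 * ht (dup (-(α + β)) (α * β) v)) :=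
        Nat.mul_le_mul hu1 hv1
      _ = C1 ^ 2 * (ht (dup (-(α + β)) (α * β) u) * ht (dup (-(α + β)) (α * β) v)) := by ring
      _ ≤ C1 ^ 2 * (C0 * n ^ 4) := Nat.mul_le_mul_left _ hh
      _ = _ := by ring
  have h5 : ht u * ht v ≤ (C1 ^ 2 * C0 + 1) * n := by
    by_contra hcon
    push Not at hcon
    have h6 : ((C1 ^ 2 * C0 + 1) * n) ^ 4 < (ht u * ht v) ^ 4 := Nat.pow_lt_pow_left hcon (by norm_num)
    have h7 : (C1 ^ 2 * C0) * n ^ 4 ≤ ((C1 ^ 2 * C0 + 1) * n) ^ 4 := by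
      rw [mul_pow]
      refine Nat.mul_le_mul_right _ ?_
      calc C1 ^ 2 * C0 ≤ C1 ^ 2 * C0 + 1 := Nat.le_succ _
        _ ≤ (C1 ^ 2 * C0 + 1) ^ 4 := Nat.le_self_pow (by norm_num) _
    omega
  have h6 : ht u ≤ Nat.sqrt ((C1 ^ 2 * C0 + 1) * n) ∨ ht v ≤ Nat.sqrt ((C1 ^ 2 * C0 + 1) * n) := by
    rw [Nat.le_sqrt, Nat.le_sqrt]
    rcases le_total (ht u) (ht v) with h | h
    · left; exact (Nat.mul_le_mul_left _ h).trans h5
    · right; exact (Nat.mul_le_mul_right _ h).trans h5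
  have hd0 : x - x' ≠ 0 := sub_ne_zero.2 hne
  rcases h6 with h | h
  · refine ⟨u, ⟨hu, h⟩, ?_⟩
    linear_combination (dup (-(α + β)) (α * β) u) * hs - hp
  · refine ⟨v, ⟨hv, h⟩, ?_⟩
    linear_combination (dup (-(α + β)) (α * β) v) * hs - hp

end Count

end Pool.Agent.Helper57.PH
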