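import Pool.Agent.Helper57.PH.Cls

/-!
Linear forms `t a - s b`, the primes dividing their values at coprime arguments, and the bound for
the product of their squarefree parts.
-/

set_option autoImplicit false

namespace Pool.Agent.Helper57.PH

open Polynomial

/-- The value at `(a, b)` of the linear form vanishing at `(s, t)`. -/
def L (s t a b : ℤ) : ℤ := t * a - s * b

/-- The value at `(a, b)` of the homogenisation of `g` in degree `m`. -/
def hom (g : ℤ[X]) (m : ℕ) (a b : ℤ) : ℤ :=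
  ∑ i ∈ Finset.range (m + 1), g.coeff i * a ^ i * b ^ (m - i)

theorem hom_smul (g : ℤ[X]) (m : ℕ) (c a b : ℤ) : hom g m (c * a) (c * b) = c ^ m * hom g m a b := by
  unfold hom
  rw [Finset.mul_sum]
  refine Finset.sum_congr rfl fun i hi => ?_
  have him : i ≤ m := Nat.lt_succ_iff.mp (Finset.mem_range.mp hi)
  have : c ^ m = c ^ i * c ^ (m - i) := by rw [← pow_add, Nat.add_sub_of_le him]
  rw [this, mul_pow, mul_pow]
  ring

theorem hom_congr (g : ℤ[X]) (m : ℕ) {l a b a' b' : ℤ} (ha : l ∣ a - a') (hb : l ∣ b - b') :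
    l ∣ hom g m a b - hom g m a' b' := by
  unfold hom
  rw [← Finset.sum_sub_distrib]
  refine Finset.dvd_sum fun i _ => ?_
  have h1 : a ^ i ≡ a' ^ i [ZMOD l] := ((Int.modEq_iff_dvd.mpr ha).symm).pow i
  have h2 : b ^ (m - i) ≡ b' ^ (m - i) [ZMOD l] := ((Int.modEq_iff_dvd.mpr hb).symm).pow (m - i)
  exact Int.modEq_iff_dvd.mp ((((Int.ModEq.refl (g.coeff i)).mul h1).mul h2).symm)

theorem hom_eval (g : ℤ[X]) {m : ℕ} (hm : g.natDegree ≤ m) {a b : ℤ} (hb : b ≠ 0) :
    (hom g m a b : ℚ) = (b : ℚ) ^ m * (g.map (Int.castRingHom ℚ)).eval ((a : ℚ) / b) := by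
  have hb' : (b : ℚ) ≠ 0 := by exact_mod_cast hb
  rw [Polynomial.eval_eq_sum_range' (n := m + 1)]
  · unfold hom
    push_cast
    rw [Finset.mul_sum]
    refine Finset.sum_congr rfl fun i hi => ?_
    have him : i ≤ m := Nat.lt_succ_iff.mp (Finset.mem_range.mp hi)
    have : (b : ℚ) ^ m = (b : ℚ) ^ (m - i) * (b : ℚ) ^ i := by
      rw [← pow_add, Nat.sub_add_cancel him]
    rw [this, div_pow, Polynomial.coeff_map]
    simp only [eq_intCast]
    field_simp
  · exact lt_of_le_of_lt (Polynomial.natDegree_map_le) (Nat.lt_succ_of_le hm)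

/-- Modulo the value of the form at coprime arguments, the arguments are proportional to the
root. -/
theorem prop_of_L {s t a b : ℤ} (hst : IsCoprime s t) :
    ∃ c : ℤ, L s t a b ∣ a - c * s ∧ L s t a b ∣ b - c * t := by
  obtain ⟨u, v, huv⟩ := hst
  refine ⟨u * a + v * b, ⟨v, ?_⟩, ⟨-u, ?_⟩⟩
  · unfold L; linear_combination (-a) * huv
  · unfold L; linear_combination (-b) * huv

theorem dvd_L_of {l : ℤ} (hl : Prime l) {s t a b s' t' : ℤ} (hst : IsCoprime s t)
    (hab : IsCoprime a b) (h : l ∣ L s t a b) (h' : l ∣ L s' t' a b) : l ∣ L s' t' s t := by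
  obtain ⟨c, h1, h2⟩ := prop_of_L (a := a) (b := b) hst
  have h1 := h.trans h1
  have h2 := h.trans h2
  have hc : ¬ l ∣ c := by
    intro hc
    have ha : l ∣ a := by
      have := dvd_add h1 (hc.mul_right s); simpa using this
    have hb : l ∣ b := by
      have := dvd_add h2 (hc.mul_right t); simpa using this
    exact hl.not_isUnit (hab.isUnit_of_dvd' ha hb)
  have h3 : l ∣ c * L s' t' s t := by
    have e : c * L s' t' s t = L s' t' a b - (t' * (a - c * s) - s' * (b - c * t)) := by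
      unfold L; ring
    rw [e]
    exact dvd_sub h' (dvd_sub (h1.mul_left t') (h2.mul_left s'))
  exact (hl.dvd_or_dvd h3).resolve_left hc

theorem dvd_hom_of {l : ℤ} (hl : Prime l) {s t a b : ℤ} (hst : IsCoprime s t)
    (hab : IsCoprime a b) (h : l ∣ L s t a b) (g : ℤ[X]) (m : ℕ) (h' : l ∣ hom g m a b) :
    l ∣ hom g m s t := by
  obtain ⟨c, h1, h2⟩ := prop_of_L (a := a) (b := b) hst
  have h1 := h.trans h1
  have h2 := h.trans h2
  have hc : ¬ l ∣ c := by
    intro hc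
    have ha : l ∣ a := by
      have := dvd_add h1 (hc.mul_right s); simpa using this
    have hb : l ∣ b := by
      have := dvd_add h2 (hc.mul_right t); simpa using this
    exact hl.not_isUnit (hab.isUnit_of_dvd' ha hb)
  have h3 : l ∣ c ^ m * hom g m s t := by
    rw [← hom_smul]
    have := hom_congr g m h1 h2
    have h4 := dvd_sub h' this
    simpa using h4
  exact (hl.dvd_or_dvd h3).resolve_left fun h4 => hc (hl.dvd_of_dvd_pow h4)

/-- The bad number of a system of linear forms and a cofactor. -/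
def badF {k : ℕ} (s t : Fin k → ℤ) (g : ℤ[X]) (m : ℕ) : ℤ :=
  (∏ i, hom g m (s i) (t i)) * ∏ i, ∏ j ∈ Finset.univ.erase i, L (s j) (t j) (s i) (t i)

theorem badF_ne {k : ℕ} {s t : Fin k → ℤ} {g : ℤ[X]} {m : ℕ}
    (hg : ∀ i, hom g m (s i) (t i) ≠ 0) (hd : ∀ i j, j ≠ i → L (s j) (t j) (s i) (t i) ≠ 0) :
    badF s t g m ≠ 0 := by
  unfold badF
  refine mul_ne_zero (Finset.prod_ne_zero_iff.mpr fun i _ => hg i)
    (Finset.prod_ne_zero_iff.mpr fun i _ => Finset.prod_ne_zero_iff.mpr fun j hj => ?_)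
  exact hd i j (Finset.ne_of_mem_erase hj)

section Prod

variable {k : ℕ} {s t : Fin k → ℤ} {g : ℤ[X]} {m : ℕ}

theorem good_L (hc : ∀ i, IsCoprime (s i) (t i)) {l a b : ℤ} (hl : Prime l) (hab : IsCoprime a b)
    (hR : ¬ l ∣ badF s t g m) {i j : Fin k} (hij : j ≠ i) (hi : l ∣ L (s i) (t i) a b) :
    ¬ l ∣ L (s j) (t j) a b := by
  intro hj
  apply hR
  have h1 := dvd_L_of hl (hc i) hab hi hj
  refine Dvd.dvd.mul_left ?_ _
  refine dvd_trans ?_ (Finset.dvd_prod_of_mem _ (Finset.mem_univ i))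
  exact dvd_trans h1 (Finset.dvd_prod_of_mem (fun j => L (s j) (t j) (s i) (t i))
    (Finset.mem_erase.mpr ⟨hij, Finset.mem_univ j⟩))

theorem good_hom (hc : ∀ i, IsCoprime (s i) (t i)) {l a b : ℤ} (hl : Prime l)
    (hab : IsCoprime a b) (hR : ¬ l ∣ badF s t g m) {i : Fin k} (hi : l ∣ L (s i) (t i) a b) :
    ¬ l ∣ hom g m a b := by
  intro hj
  apply hR
  have h1 := dvd_hom_of hl (hc i) hab hi g m hj
  refine Dvd.dvd.mul_right ?_ _
  exact dvd_trans h1 (Finset.dvd_prod_of_mem (fun i => hom g m (s i) (t i)) (Finset.mem_univ i))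

/-- A good prime dividing a squarefree part divides the twist. -/
theorem dvd_twist (hc : ∀ i, IsCoprime (s i) (t i)) {l : ℕ} [hl : Fact l.Prime] {a b d : ℤ}
    (hab : IsCoprime a b) (hR : ¬ (l : ℤ) ∣ badF s t g m) {m0 : ℚ} (hm0 : m0 ≠ 0)
    (hd : (d : ℚ) * m0 ^ 2 = ((∏ i, L (s i) (t i) a b) * hom g m a b : ℤ)) {σ v : Fin k → ℤ}
    (hv : ∀ i, v i ≠ 0) (hσ : ∀ i, Squarefree (σ i))
    (hL : ∀ i, L (s i) (t i) a b = σ i * v i ^ 2) {i : Fin k} (hi : (l : ℤ) ∣ σ i) :
    (l : ℤ) ∣ d := by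
  classical
  by_contra hnd
  have hlp : Prime (l : ℤ) := Nat.prime_iff_prime_int.mp hl.out
  have hLi : (l : ℤ) ∣ L (s i) (t i) a b := by rw [hL i]; exact hi.mul_right _
  have hne : ∀ i, σ i ≠ 0 := fun i => (hσ i).ne_zero
  have hrest : ¬ (l : ℤ) ∣ (∏ j ∈ Finset.univ.erase i, L (s j) (t j) a b) * hom g m a b := by
    intro h
    rcases hlp.dvd_or_dvd h with h | h
    · obtain ⟨j, hj, hjl⟩ := (Prime.dvd_finsetProd_iff hlp _).mp h
      exact good_L hc hlp hab hR (Finset.ne_of_mem_erase hj) hLi hjl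
    · exact good_hom hc hlp hab hR hLi h
  have h1 : (∏ i, L (s i) (t i) a b) * hom g m a b
      = σ i * v i ^ 2 * ((∏ j ∈ Finset.univ.erase i, L (s j) (t j) a b) * hom g m a b) := by
    rw [← Finset.mul_prod_erase _ _ (Finset.mem_univ i), hL i]
    ring
  rw [h1] at hd
  set Q := (∏ j ∈ Finset.univ.erase i, L (s j) (t j) a b) * hom g m a b with hQ
  have hQ0 : Q ≠ 0 := fun h => hrest (h ▸ dvd_zero _)
  have hd0 : d ≠ 0 := fun h => hnd (h ▸ dvd_zero _)
  have hv2 : (v i : ℚ) ≠ 0 := by exact_mod_cast hv i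
  have hs2 : (σ i : ℚ) ≠ 0 := by exact_mod_cast hne i
  have hQ2 : (Q : ℚ) ≠ 0 := by exact_mod_cast hQ0
  have hd2 : (d : ℚ) ≠ 0 := by exact_mod_cast hd0
  have e1 : padicValRat l ((d : ℚ) * m0 ^ 2) = 2 * padicValRat l m0 := by
    rw [padicValRat.mul hd2 (pow_ne_zero 2 hm0), padic_zero hnd, padicValRat.pow]
    push_cast; ring
  have e2 : padicValRat l (((σ i * v i ^ 2 * Q : ℤ)) : ℚ) = 1 + 2 * padicValRat l (v i : ℚ) := by
    push_cast
    rw [padicValRat.mul (mul_ne_zero hs2 (pow_ne_zero 2 hv2)) hQ2,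
      padicValRat.mul hs2 (pow_ne_zero 2 hv2), padic_zero hrest, padicValRat.pow,
      padic_one (hσ i) hi]
    push_cast; ring
  rw [hd, e2] at e1
  omega

/-- The product of the squarefree parts is at most a constant times the twist. -/
theorem prod_le (hc : ∀ i, IsCoprime (s i) (t i)) (hR0 : badF s t g m ≠ 0) {a b d : ℤ}
    (hab : IsCoprime a b) (hsd : Squarefree d) {m0 : ℚ} (hm0 : m0 ≠ 0)
    (hd : (d : ℚ) * m0 ^ 2 = ((∏ i, L (s i) (t i) a b) * hom g m a b : ℤ)) {σ v : Fin k → ℤ}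
    (hv : ∀ i, v i ≠ 0) (hσ : ∀ i, Squarefree (σ i))
    (hL : ∀ i, L (s i) (t i) a b = σ i * v i ^ 2) :
    ∏ i, (σ i).natAbs ≤ (badF s t g m).natAbs ^ k * d.natAbs := by
  classical
  set R := (badF s t g m).natAbs with hR
  have hR1 : R ≠ 0 := Int.natAbs_ne_zero.mpr hR0
  set n : Fin k → ℕ := fun i => (σ i).natAbs with hn
  have hnsq : ∀ i, Squarefree (n i) := fun i => Int.squarefree_natAbs.mpr (hσ i)
  set N : Fin k → ℕ := fun i => n i / (n i).gcd R with hN
  have hNcop : ∀ i, Nat.Coprime (N i) R := fun i =>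
    Nat.coprime_div_gcd_of_squarefree (hnsq i) hR1
  have hNdvd : ∀ i, N i ∣ n i := fun i => Nat.div_dvd_of_dvd (Nat.gcd_dvd_left _ _)
  have hNsq : ∀ i, Squarefree (N i) := fun i => (hnsq i).squarefree_of_dvd (hNdvd i)
  have hgood : ∀ i (l : ℕ), l.Prime → l ∣ N i →
      (l : ℤ) ∣ σ i ∧ ¬ (l : ℤ) ∣ badF s t g m := by
    intro i l hl h
    refine ⟨Int.natCast_dvd.mpr (h.trans (hNdvd i)), fun h' => ?_⟩
    have h1 : l ∣ R := Int.natCast_dvd.mp h'
    exact hl.one_lt.ne' (Nat.eq_one_of_dvd_coprimes (hNcop i) h h1)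
  have hNd : ∀ i, N i ∣ d.natAbs := by
    intro i
    rw [← Nat.prod_primeFactors_of_squarefree (hNsq i)]
    refine Finset.prod_primes_dvd _ (fun l hl => (Nat.prime_of_mem_primeFactors hl).prime)
      fun l hl => ?_
    have hlp := Nat.prime_of_mem_primeFactors hl
    have : Fact l.Prime := ⟨hlp⟩
    obtain ⟨h1, h2⟩ := hgood i l hlp (Nat.dvd_of_mem_primeFactors hl)
    exact Int.natCast_dvd.mp (dvd_twist hc hab h2 hm0 hd hv hσ hL h1)
  have hpair : ∀ i j, i ≠ j → Nat.Coprime (N i) (N j) := by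
    intro i j hij
    refine Nat.coprime_of_dvd fun l hl h1 h2 => ?_
    obtain ⟨a1, a2⟩ := hgood i l hl h1
    obtain ⟨b1, _⟩ := hgood j l hl h2
    have hlp : Prime (l : ℤ) := Nat.prime_iff_prime_int.mp hl
    refine good_L hc hlp hab a2 hij.symm ?_ ?_
    · rw [hL i]; exact a1.mul_right _
    · rw [hL j]; exact b1.mul_right _
  have hprod : ∏ i, N i ∣ d.natAbs := by
    refine Finset.prod_dvd_of_isRelPrime ?_ fun i _ => hNd i
    intro i _ j _ hij
    exact Nat.coprime_iff_isRelPrime.mp (hpair i j hij)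
  have hle : ∀ i, n i ≤ R * N i := by
    intro i
    have h1 : n i = (n i).gcd R * N i := (Nat.mul_div_cancel' (Nat.gcd_dvd_left _ _)).symm
    calc n i = (n i).gcd R * N i := h1
      _ ≤ R * N i := Nat.mul_le_mul_right _ (Nat.le_of_dvd (Nat.pos_of_ne_zero hR1)
          (Nat.gcd_dvd_right _ _))
  calc ∏ i, n i ≤ ∏ i, (R * N i) := Finset.prod_le_prod' fun i _ => hle i
    _ = R ^ k * ∏ i, N i := by rw [Finset.prod_mul_distrib]; simp
    _ ≤ R ^ k * d.natAbs := Nat.mul_le_mul_left _ (Nat.le_of_dvd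
        (Int.natAbs_pos.mpr hsd.ne_zero) hprod)

end Prod

end Pool.Agent.Helper57.PH
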