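import Pool.Agent.Helper57.PH.Forms
import Pool.Agent.Helper57.PH.Count

/-!
Four linear forms with small squarefree parts, the elliptic curve they give, and the count of the
twists.
-/

set_option autoImplicit false

namespace Pool.Agent.Helper57.PH

open Polynomial

/-- Four of the numbers have a product at most the `4/k`-th power of the product of all. -/
theorem window {k : ℕ} (hk : 4 ≤ k) (n : Fin k → ℕ) :
    ∃ e : Fin 4 ↪ Fin k, (∏ i, n (e i)) ^ k ≤ (∏ i, n i) ^ 4 := by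
  obtain ⟨k, rfl⟩ : ∃ k', k = k' + 4 := ⟨k - 4, by omega⟩
  by_contra hcon
  push Not at hcon
  have hinj : ∀ j : Fin (k + 4), Function.Injective
      (fun i : Fin 4 => j + (Fin.castLE (by omega) i : Fin (k + 4))) := by
    intro j a b h
    have := add_left_cancel h
    exact Fin.castLE_injective _ this
  set W : Fin (k + 4) → ℕ := fun j => ∏ i : Fin 4, n (j + (Fin.castLE (by omega) i : Fin (k + 4)))
    with hW
  have h1 : ∀ j : Fin (k + 4), (∏ i, n i) ^ 4 < W j ^ (k + 4) := fun j => hcon ⟨_, hinj j⟩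
  have h3 : ∏ j, W j = (∏ i, n i) ^ 4 := by
    rw [hW, Finset.prod_comm]
    rw [Finset.prod_congr rfl fun i _ =>
      Equiv.prod_comp (Equiv.addRight (Fin.castLE (by omega) i : Fin (k + 4))) n]
    simp
  have h2 : ∏ j : Fin (k + 4), (∏ i, n i) ^ 4 < ∏ j : Fin (k + 4), W j ^ (k + 4) := by
    rcases Nat.eq_zero_or_pos (∏ i, n i) with h0 | h0
    · exfalso
      rw [h0, zero_pow (by norm_num)] at h3
      obtain ⟨j, _, hj⟩ := Finset.prod_eq_zero_iff.mp h3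
      have := h1 j
      rw [hj, zero_pow (by omega)] at this
      exact absurd this (Nat.not_lt_zero _)
    · exact Finset.prod_lt_prod_of_nonempty (fun j _ => pow_pos h0 4) (fun j _ => h1 j)
        ⟨0, Finset.mem_univ 0⟩
  rw [Finset.prod_pow Finset.univ (k + 4) W, h3] at h2
  simp only [Finset.prod_const, Finset.card_univ, Fintype.card_fin] at h2
  exact lt_irrefl _ h2

/-- The point of the elliptic curve given by four of the forms. -/
theorem weier {s t σ v : Fin 4 → ℤ} {a b : ℤ} (hv : ∀ i, v i ≠ 0) (hσ : ∀ i, σ i ≠ 0)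
    (hL : ∀ i, L (s i) (t i) a b = σ i * v i ^ 2)
    (h03 : L (s 0) (t 0) (s 3) (t 3) ≠ 0) (h13 : L (s 1) (t 1) (s 3) (t 3) ≠ 0)
    (h23 : L (s 2) (t 2) (s 3) (t 3) ≠ 0) :
    Pt (-(-(L (s 0) (t 0) (s 1) (t 1) * L (s 2) (t 2) (s 3) (t 3)) +
        -(L (s 0) (t 0) (s 2) (t 2) * L (s 1) (t 1) (s 3) (t 3))))
      (-(L (s 0) (t 0) (s 1) (t 1) * L (s 2) (t 2) (s 3) (t 3)) *
        -(L (s 0) (t 0) (s 2) (t 2) * L (s 1) (t 1) (s 3) (t 3))) (∏ i, σ i)
      ((L (s 1) (t 1) (s 3) (t 3) * L (s 2) (t 2) (s 3) (t 3) * L (s 0) (t 0) a b : ℤ) /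
        (L (s 3) (t 3) a b : ℤ)) := by
  have hL3 : (L (s 3) (t 3) a b : ℚ) ≠ 0 := by
    have : L (s 3) (t 3) a b ≠ 0 := by
      rw [hL 3]; exact mul_ne_zero (hσ 3) (pow_ne_zero 2 (hv 3))
    exact_mod_cast this
  refine ⟨(L (s 0) (t 0) (s 3) (t 3) * L (s 1) (t 1) (s 3) (t 3) * L (s 2) (t 2) (s 3) (t 3) *
    (v 0 * v 1 * v 2 * v 3) : ℤ) / (L (s 3) (t 3) a b : ℤ) ^ 2, ?_, ?_⟩
  · refine div_ne_zero ?_ (pow_ne_zero 2 hL3)
    have : (L (s 0) (t 0) (s 3) (t 3) * L (s 1) (t 1) (s 3) (t 3) * L (s 2) (t 2) (s 3) (t 3) *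
      (v 0 * v 1 * v 2 * v 3) : ℤ) ≠ 0 :=
      mul_ne_zero (mul_ne_zero (mul_ne_zero h03 h13) h23)
        (mul_ne_zero (mul_ne_zero (mul_ne_zero (hv 0) (hv 1)) (hv 2)) (hv 3))
    exact_mod_cast this
  · have e : (∏ i, σ i) * (v 0 * v 1 * v 2 * v 3) ^ 2 =
        L (s 0) (t 0) a b * L (s 1) (t 1) a b * L (s 2) (t 2) a b * L (s 3) (t 3) a b := by
      rw [hL 0, hL 1, hL 2, hL 3, Fin.prod_univ_four]; ring
    have e' : ((∏ i, σ i : ℤ) : ℚ) * (v 0 * v 1 * v 2 * v 3) ^ 2 =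
        L (s 0) (t 0) a b * L (s 1) (t 1) a b * L (s 2) (t 2) a b * L (s 3) (t 3) a b := by
      exact_mod_cast e
    rw [div_pow, mul_div_assoc', div_eq_iff (pow_ne_zero 2 (pow_ne_zero 2 hL3))]
    have e1 : (L (s 1) (t 1) (s 3) (t 3) : ℚ) * L (s 0) (t 0) a b + L (s 0) (t 0) (s 1) (t 1) * L (s 3) (t 3) a b = L (s 0) (t 0) (s 3) (t 3) * L (s 1) (t 1) a b := by
      unfold L; push_cast; ring
    have e2 : (L (s 2) (t 2) (s 3) (t 3) : ℚ) * L (s 0) (t 0) a b + L (s 0) (t 0) (s 2) (t 2) * L (s 3) (t 3) a b = L (s 0) (t 0) (s 3) (t 3) * L (s 2) (t 2) a b := by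
      unfold L; push_cast; ring
    push_cast at e' ⊢
    set l0 := (L (s 0) (t 0) a b : ℚ)
    set l1 := (L (s 1) (t 1) a b : ℚ)
    set l2 := (L (s 2) (t 2) a b : ℚ)
    set l3 := (L (s 3) (t 3) a b : ℚ)
    set d01 := (L (s 0) (t 0) (s 1) (t 1) : ℚ)
    set d02 := (L (s 0) (t 0) (s 2) (t 2) : ℚ)
    set d03 := (L (s 0) (t 0) (s 3) (t 3) : ℚ)
    set d13 := (L (s 1) (t 1) (s 3) (t 3) : ℚ)
    set d23 := (L (s 2) (t 2) (s 3) (t 3) : ℚ)
    have e3 : (d13 * d23 * l0 / l3) * ((d13 * d23 * l0 / l3) ^ 2 + -(-(d01 * d23) + -(d02 * d13)) *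
        (d13 * d23 * l0 / l3) + -(d01 * d23) * -(d02 * d13)) * (l3 ^ 2) ^ 2
        = d13 * d23 * l0 * (d23 * (d13 * l0 + d01 * l3)) * (d13 * (d23 * l0 + d02 * l3)) * l3 := by
      field_simp
      ring
    rw [e3, e1, e2]
    linear_combination (d03 * d13 * d23) ^ 2 * e'

theorem sqf_unique {d d' : ℤ} (hd : Squarefree d) (hd' : Squarefree d') {r r' : ℚ} (hr : r ≠ 0)
    (hr' : r' ≠ 0) (h : (d : ℚ) * r ^ 2 = d' * r' ^ 2) : d = d' := by
  set u : ℚ := r / r' with hu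
  have hu0 : u ≠ 0 := div_ne_zero hr hr'
  have h1 : (d : ℚ) * u ^ 2 = d' := by
    rw [hu, div_pow, mul_div_assoc', h, mul_div_assoc, div_self (pow_ne_zero 2 hr'), mul_one]
  have hden : (u.den : ℚ) ≠ 0 := by exact_mod_cast u.den_nz
  have h2 : d * u.num ^ 2 = d' * (u.den : ℤ) ^ 2 := by
    have : (d : ℚ) * (u.num : ℚ) ^ 2 = d' * (u.den : ℚ) ^ 2 := by
      rw [← h1]
      conv_rhs => rw [← Rat.num_div_den u]
      field_simp
      rw [Rat.num_div_den]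
    exact_mod_cast this
  have hcop : IsCoprime (u.num ^ 2) ((u.den : ℤ) ^ 2) := by
    refine IsCoprime.pow ?_
    rw [Int.isCoprime_iff_nat_coprime]
    simpa using u.reduced
  have h3 : (u.den : ℤ) ^ 2 ∣ d :=
    hcop.symm.dvd_of_dvd_mul_right (by rw [h2]; exact Dvd.intro_left _ rfl)
  have h4 : u.num ^ 2 ∣ d' :=
    hcop.dvd_of_dvd_mul_right (by rw [← h2]; exact Dvd.intro_left _ rfl)
  have h5 : IsUnit (u.den : ℤ) := hd _ (by rw [← pow_two]; exact h3)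
  have h6 : IsUnit u.num := hd' _ (by rw [← pow_two]; exact h4)
  have h7 : (u.den : ℤ) ^ 2 = 1 := by
    rcases Int.isUnit_iff.mp h5 with h | h <;> rw [h] <;> norm_num
  have h8 : u.num ^ 2 = 1 := by
    rcases Int.isUnit_iff.mp h6 with h | h <;> rw [h] <;> norm_num
  rw [h7, h8] at h2
  simpa using h2

theorem ht_div_le {p q : ℤ} (hq : q ≠ 0) : ht ((p : ℚ) / q) ≤ max p.natAbs q.natAbs := by
  have h : ((p : ℚ) / q) = Rat.divInt p q := (Rat.divInt_eq_div p q).symm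
  rw [h]
  refine max_le ?_ ?_
  · by_cases hp : p = 0
    · rw [hp]; simp
    · exact le_trans (Nat.le_of_dvd (Int.natAbs_pos.mpr hp) (Int.natAbs_dvd_natAbs.mpr
        (Rat.num_dvd p hq))) (le_max_left _ _)
  · exact le_trans (Nat.le_of_dvd (Int.natAbs_pos.mpr hq) (by
      have := Int.natAbs_dvd_natAbs.mpr (Rat.den_dvd p q)
      simpa using this)) (le_max_right _ _)

section Main

variable {k : ℕ}

/-- The first nonzero root of the elliptic curve of four of the forms. -/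
def al (s t : Fin k → ℤ) (e : Fin 4 ↪ Fin k) : ℤ :=
  -(L (s (e 0)) (t (e 0)) (s (e 1)) (t (e 1)) * L (s (e 2)) (t (e 2)) (s (e 3)) (t (e 3)))

/-- The second nonzero root of the elliptic curve of four of the forms. -/
def be (s t : Fin k → ℤ) (e : Fin 4 ↪ Fin k) : ℤ :=
  -(L (s (e 0)) (t (e 0)) (s (e 2)) (t (e 2)) * L (s (e 1)) (t (e 1)) (s (e 3)) (t (e 3)))

/-- The numerator constant of the coordinate. -/
def mu (s t : Fin k → ℤ) (e : Fin 4 ↪ Fin k) : ℤ :=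
  L (s (e 1)) (t (e 1)) (s (e 3)) (t (e 3)) * L (s (e 2)) (t (e 2)) (s (e 3)) (t (e 3))

/-- The coordinate of the point of the elliptic curve of four of the forms. -/
def xi (s t : Fin k → ℤ) (e : Fin 4 ↪ Fin k) (a b : ℤ) : ℚ :=
  (mu s t e * L (s (e 0)) (t (e 0)) a b : ℤ) / (L (s (e 3)) (t (e 3)) a b : ℤ)

variable {s t : Fin k → ℤ} {g : ℤ[X]} {m : ℕ}

theorem al_ne (hdet : ∀ i j, i ≠ j → L (s i) (t i) (s j) (t j) ≠ 0) (e : Fin 4 ↪ Fin k) :
    al s t e ≠ 0 :=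
  neg_ne_zero.mpr (mul_ne_zero (hdet _ _ (e.injective.ne (by decide)))
    (hdet _ _ (e.injective.ne (by decide))))

theorem be_ne (hdet : ∀ i j, i ≠ j → L (s i) (t i) (s j) (t j) ≠ 0) (e : Fin 4 ↪ Fin k) :
    be s t e ≠ 0 :=
  neg_ne_zero.mpr (mul_ne_zero (hdet _ _ (e.injective.ne (by decide)))
    (hdet _ _ (e.injective.ne (by decide))))

theorem al_ne_be (hdet : ∀ i j, i ≠ j → L (s i) (t i) (s j) (t j) ≠ 0) (e : Fin 4 ↪ Fin k) :
    al s t e ≠ be s t e := by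
  intro h
  have h1 : L (s (e 0)) (t (e 0)) (s (e 3)) (t (e 3)) * L (s (e 1)) (t (e 1)) (s (e 2)) (t (e 2))
      = 0 := by
    have : L (s (e 0)) (t (e 0)) (s (e 3)) (t (e 3)) * L (s (e 1)) (t (e 1)) (s (e 2)) (t (e 2))
      = al s t e - be s t e := by
      unfold al be L; ring
    rw [this, h, sub_self]
  rcases mul_eq_zero.mp h1 with h2 | h2
  · exact hdet _ _ (e.injective.ne (by decide)) h2
  · exact hdet _ _ (e.injective.ne (by decide)) h2

theorem xi_inj (hdet : ∀ i j, i ≠ j → L (s i) (t i) (s j) (t j) ≠ 0) (e : Fin 4 ↪ Fin k)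
    {a b a' b' : ℤ} (h : L (s (e 3)) (t (e 3)) a b ≠ 0) (h' : L (s (e 3)) (t (e 3)) a' b' ≠ 0)
    (hx : xi s t e a b = xi s t e a' b') : a * b' = a' * b := by
  unfold xi at hx
  have hq : (L (s (e 3)) (t (e 3)) a b : ℚ) ≠ 0 := by exact_mod_cast h
  have hq' : (L (s (e 3)) (t (e 3)) a' b' : ℚ) ≠ 0 := by exact_mod_cast h'
  rw [div_eq_div_iff hq hq'] at hx
  have hx' : mu s t e * L (s (e 0)) (t (e 0)) a b * L (s (e 3)) (t (e 3)) a' b'
      = mu s t e * L (s (e 0)) (t (e 0)) a' b' * L (s (e 3)) (t (e 3)) a b := by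
    exact_mod_cast hx
  have hmu : mu s t e ≠ 0 := mul_ne_zero (hdet _ _ (e.injective.ne (by decide)))
    (hdet _ _ (e.injective.ne (by decide)))
  have h03 : L (s (e 0)) (t (e 0)) (s (e 3)) (t (e 3)) ≠ 0 :=
    hdet _ _ (e.injective.ne (by decide))
  have h1 : mu s t e * (L (s (e 0)) (t (e 0)) (s (e 3)) (t (e 3)) * (a * b' - a' * b)) = 0 := by
    have : mu s t e * (L (s (e 0)) (t (e 0)) (s (e 3)) (t (e 3)) * (a * b' - a' * b)) =
      -(mu s t e * L (s (e 0)) (t (e 0)) a b * L (s (e 3)) (t (e 3)) a' b'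
      - mu s t e * L (s (e 0)) (t (e 0)) a' b' * L (s (e 3)) (t (e 3)) a b) := by
      unfold L; ring
    rw [this, hx', sub_self, neg_zero]
  have h2 := (mul_eq_zero.mp ((mul_eq_zero.mp h1).resolve_left hmu)).resolve_left h03
  linarith

end Main

end Pool.Agent.Helper57.PH
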