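import Pool.Agent.Helper57.PH.Height

/-!
# PH: halving sums of points in the same class

Explicit 2-descent on `D y² = x (x - α) (x - β)`.
-/

set_option autoImplicit false

namespace Pool.Agent.Helper57.PH

/-- `x` is the first coordinate of a point of `D y² = x (x² + a x + b)` with `y ≠ 0` -/
def Pt (a b D : ℤ) (x : ℚ) : Prop := ∃ y : ℚ, y ≠ 0 ∧ D * y ^ 2 = x * (x ^ 2 + a * x + b)

private theorem third {D x x' y y' e e' e'' w : ℚ} (hne : x ≠ x') (hw0 : w ≠ 0)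
    (hy : D * y ^ 2 = (x - e) * ((x - e') * (x - e'')))
    (hy' : D * y' ^ 2 = (x' - e) * ((x' - e') * (x' - e'')))
    (hw : (x - e) * (x' - e) = w ^ 2) :
    D * ((y - y') / (x - x')) ^ 2 + (e + e' + e'') - x - x' - e =
      D * ((y * (x' - e) - y' * (x - e)) / ((x - x') * w)) ^ 2 := by
  have hd : x - x' ≠ 0 := sub_ne_zero.2 hne
  have key : (D * (y - y') ^ 2 + (e + e' + e'' - x - x' - e) * (x - x') ^ 2) * w ^ 2 =
      D * (y * (x' - e) - y' * (x - e)) ^ 2 := by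
    rw [← hw]
    linear_combination ((x' - e) * (x - x')) * hy - ((x - e) * (x - x')) * hy'
  have e1 : D * ((y * (x' - e) - y' * (x - e)) / ((x - x') * w)) ^ 2 =
      D * (y * (x' - e) - y' * (x - e)) ^ 2 / ((x - x') ^ 2 * w ^ 2) := by
    rw [div_pow, mul_pow]; ring
  rw [e1, ← key]
  field_simp
  ring

private theorem halve0 {D z e e' r0 r1 r2 : ℚ} (hD : D ≠ 0) (he : e ≠ 0) (he' : e' ≠ 0)
    (hee : e ≠ e') (h0 : z - 0 = D * r0 ^ 2) (h1 : z - e = D * r1 ^ 2) (h2 : z - e' = D * r2 ^ 2) :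
    ∃ u y : ℚ, y ≠ 0 ∧ D * y ^ 2 = u * (u ^ 2 - (e + e') * u + e * e') ∧
      (u ^ 2 - e * e') ^ 2 / (4 * (u * (u ^ 2 - (e + e') * u + e * e'))) = z := by
  have n1 : r0 + r1 ≠ 0 := by
    intro h
    apply he
    have : e = D * ((r0 - r1) * (r0 + r1)) := by linear_combination h0 - h1
    rw [this, h]; ring
  have n2 : r0 + r2 ≠ 0 := by
    intro h
    apply he'
    have : e' = D * ((r0 - r2) * (r0 + r2)) := by linear_combination h0 - h2
    rw [this, h]; ring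
  have n3 : r1 + r2 ≠ 0 := by
    intro h
    apply hee
    have : e - e' = D * ((r2 - r1) * (r1 + r2)) := by linear_combination h2 - h1
    rw [h] at this
    have h' : e - e' = 0 := by rw [this]; ring
    exact sub_eq_zero.1 h'
  have he1 : e = D * (r0 ^ 2 - r1 ^ 2) := by linear_combination h0 - h1
  have he2 : e' = D * (r0 ^ 2 - r2 ^ 2) := by linear_combination h0 - h2
  have hz : z = D * r0 ^ 2 := by linear_combination h0
  obtain ⟨u, hu⟩ : ∃ u : ℚ, u = D * ((r0 + r1) * (r0 + r2)) := ⟨_, rfl⟩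
  obtain ⟨y, hy⟩ : ∃ y : ℚ, y = D * ((r0 + r1) * (r0 + r2) * (r1 + r2)) := ⟨_, rfl⟩
  have hy0 : y ≠ 0 := by
    rw [hy]
    exact mul_ne_zero hD (mul_ne_zero (mul_ne_zero n1 n2) n3)
  have hc : D * y ^ 2 = u * (u ^ 2 - (e + e') * u + e * e') := by
    rw [hy, hu, he1, he2]; ring
  have hs : u ^ 2 - e * e' = 2 * r0 * (D * y) := by
    rw [hy, hu, he1, he2]; ring
  refine ⟨u, y, hy0, hc, ?_⟩
  rw [← hc, hs, hz]
  field_simp
  ring

private theorem half1 {α β D : ℤ} (hα : α ≠ 0) (hβ : β ≠ 0) (hαβ : α ≠ β) (hD : D ≠ 0)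
    {x x' y y' w0 w1 w2 : ℚ} (hne : x ≠ x') (h0 : w0 ≠ 0) (h1 : w1 ≠ 0) (h2 : w2 ≠ 0)
    (hy : (D : ℚ) * y ^ 2 = (x - 0) * ((x - α) * (x - β)))
    (hy' : (D : ℚ) * y' ^ 2 = (x' - 0) * ((x' - α) * (x' - β)))
    (hw0 : (x - 0) * (x' - 0) = w0 ^ 2) (hw1 : (x - α) * (x' - α) = w1 ^ 2)
    (hw2 : (x - β) * (x' - β) = w2 ^ 2) :
    ∃ u : ℚ, Pt (-(α + β)) (α * β) D u ∧
      dup (-(α + β)) (α * β) u = D * ((y - y') / (x - x')) ^ 2 + (α + β) - x - x' := by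
  have hDq : (D : ℚ) ≠ 0 := by exact_mod_cast hD
  have hαq : (α : ℚ) ≠ 0 := by exact_mod_cast hα
  have hβq : (β : ℚ) ≠ 0 := by exact_mod_cast hβ
  have hαβq : (α : ℚ) ≠ β := by exact_mod_cast hαβ
  have t0 := third hne h0 hy hy' hw0
  have t1 := third (e := (α : ℚ)) (e' := 0) (e'' := β) (D := (D : ℚ)) (y := y) (y' := y') hne h1
    (by rw [hy]; ring) (by rw [hy']; ring) hw1
  have t2 := third (e := (β : ℚ)) (e' := 0) (e'' := α) (D := (D : ℚ)) (y := y) (y' := y') hne h2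
    (by rw [hy]; ring) (by rw [hy']; ring) hw2
  obtain ⟨z, hz⟩ : ∃ z : ℚ, z = D * ((y - y') / (x - x')) ^ 2 + (α + β) - x - x' := ⟨_, rfl⟩
  rw [← hz]
  obtain ⟨u, v, hv, hc, hd⟩ := halve0 (z := z) hDq hαq hβq hαβq
    (by rw [← t0, hz]; ring) (by rw [← t1, hz]; ring) (by rw [← t2, hz]; ring)
  refine ⟨u, ⟨v, hv, ?_⟩, ?_⟩
  · rw [hc]; push_cast; ring
  · rw [← hd, dup]; push_cast; ring_nf

/-- **Halving**: two points in the same class; the sum and the difference are divisible by 2.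
The two halves `u`, `v` are described by their first coordinates. -/
theorem halve {α β D : ℤ} (hα : α ≠ 0) (hβ : β ≠ 0) (hαβ : α ≠ β) (hD : D ≠ 0)
    {x x' w0 w1 w2 : ℚ} (hne : x ≠ x')
    (hx : Pt (-(α + β)) (α * β) D x) (hx' : Pt (-(α + β)) (α * β) D x')
    (hw0 : x * x' = w0 ^ 2) (hw1 : (x - α) * (x' - α) = w1 ^ 2)
    (hw2 : (x - β) * (x' - β) = w2 ^ 2) :
    ∃ u v : ℚ, Pt (-(α + β)) (α * β) D u ∧ Pt (-(α + β)) (α * β) D v ∧
      (x - x') ^ 2 * (dup (-(α + β)) (α * β) u + dup (-(α + β)) (α * β) v) =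
        2 * ((x + x') * (x * x' + α * β) - 2 * (α + β) * (x * x')) ∧
      (x - x') ^ 2 * (dup (-(α + β)) (α * β) u * dup (-(α + β)) (α * β) v) =
        (x * x' - α * β) ^ 2 := by
  obtain ⟨y, hy0, hy⟩ := hx
  obtain ⟨y', hy'0, hy'⟩ := hx'
  have hDq : (D : ℚ) ≠ 0 := by exact_mod_cast hD
  have hd : x - x' ≠ 0 := sub_ne_zero.2 hne
  have g : (D : ℚ) * y ^ 2 = (x - 0) * ((x - α) * (x - β)) := by rw [hy]; push_cast; ring
  have g' : (D : ℚ) * y' ^ 2 = (x' - 0) * ((x' - α) * (x' - β)) := by rw [hy']; push_cast; ring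
  have g'' : (D : ℚ) * (-y') ^ 2 = (x' - 0) * ((x' - α) * (x' - β)) := by rw [← g']; ring
  have nz : (x - 0) * ((x - α) * (x - β)) ≠ 0 := by
    rw [← g]; exact mul_ne_zero hDq (pow_ne_zero _ hy0)
  have nz' : (x' - 0) * ((x' - α) * (x' - β)) ≠ 0 := by
    rw [← g']; exact mul_ne_zero hDq (pow_ne_zero _ hy'0)
  have m0 := left_ne_zero_of_mul nz
  have m1 := left_ne_zero_of_mul (right_ne_zero_of_mul nz)
  have m2 := right_ne_zero_of_mul (right_ne_zero_of_mul nz)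
  have m0' := left_ne_zero_of_mul nz'
  have m1' := left_ne_zero_of_mul (right_ne_zero_of_mul nz')
  have m2' := right_ne_zero_of_mul (right_ne_zero_of_mul nz')
  have hw0' : (x - 0) * (x' - 0) = w0 ^ 2 := by rw [← hw0]; ring
  have z0 : w0 ≠ 0 := by
    rintro rfl
    exact mul_ne_zero m0 m0' (by rw [hw0']; ring)
  have z1 : w1 ≠ 0 := by
    rintro rfl
    exact mul_ne_zero m1 m1' (by rw [hw1]; ring)
  have z2 : w2 ≠ 0 := by
    rintro rfl
    exact mul_ne_zero m2 m2' (by rw [hw2]; ring)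
  obtain ⟨u, hu, hu'⟩ := half1 hα hβ hαβ hD hne z0 z1 z2 g g' hw0' hw1 hw2
  obtain ⟨v, hv, hv'⟩ := half1 hα hβ hαβ hD hne z0 z1 z2 g g'' hw0' hw1 hw2
  refine ⟨u, v, hu, hv, ?_, ?_⟩
  · rw [hu', hv']
    have e1 : (x - x') ^ 2 * (↑D * ((y - y') / (x - x')) ^ 2 + (↑α + ↑β) - x - x' +
        (↑D * ((y - -y') / (x - x')) ^ 2 + (↑α + ↑β) - x - x')) =
        2 * (D * y ^ 2 + D * y' ^ 2) + 2 * ((α + β) - x - x') * (x - x') ^ 2 := by
      field_simp
      ring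
    rw [e1, g, g']
    ring
  · rw [hu', hv']
    have e1 : (x - x') ^ 2 * ((↑D * ((y - y') / (x - x')) ^ 2 + (↑α + ↑β) - x - x') *
        (↑D * ((y - -y') / (x - x')) ^ 2 + (↑α + ↑β) - x - x')) =
        ((D * y ^ 2 - D * y' ^ 2) ^ 2 + 2 * (D * y ^ 2 + D * y' ^ 2) * (((α + β) - x - x') * (x - x') ^ 2) +
          (((α + β) - x - x') * (x - x') ^ 2) ^ 2) / (x - x') ^ 2 := by
      field_simp
      ring
    rw [e1, g, g', div_eq_iff (pow_ne_zero _ hd)]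
    ring

end Pool.Agent.Helper57.PH
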