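import Mathlib

/-!
# PH: heights of rational numbers, quadratics and duplication

Part of the project on twists with a point of polynomially bounded height (MP_f4d5ac_nt).
-/

set_option autoImplicit false

namespace Pool.Agent.Helper57.PH

/-- The height of a rational number. -/
def ht (x : ℚ) : ℕ := max x.num.natAbs x.den

theorem num_le_ht (x : ℚ) : |(x.num : ℤ)| ≤ (ht x : ℤ) := by
  have h : x.num.natAbs ≤ ht x := le_max_left _ _
  rw [Int.abs_eq_natAbs]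
  exact_mod_cast h

theorem den_le_ht (x : ℚ) : (x.den : ℤ) ≤ (ht x : ℤ) := by
  have h : x.den ≤ ht x := le_max_right _ _
  exact_mod_cast h

theorem one_le_ht (x : ℚ) : 1 ≤ ht x := le_trans x.den_pos (le_max_right _ _)

/-- rational numbers of bounded height -/
theorem finite_ht (N : ℕ) : {x : ℚ | ht x ≤ N}.Finite := by
  have hsub : {x : ℚ | ht x ≤ N} ⊆
      (fun p : ℤ × ℤ => (p.1 : ℚ) / (p.2 : ℚ)) '' (Set.Icc (-(N : ℤ)) N ×ˢ Set.Icc (-(N : ℤ)) N) := by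
    intro x hx
    refine ⟨(x.num, (x.den : ℤ)), ⟨?_, ?_⟩, ?_⟩
    · have h := (num_le_ht x).trans (Int.ofNat_le.2 hx)
      exact abs_le.1 h
    · have h := (den_le_ht x).trans (Int.ofNat_le.2 hx)
      exact ⟨by have := x.den_pos; omega, h⟩
    · have := Rat.num_div_den x
      simpa using this
  exact ((Set.finite_Icc _ _).prod (Set.finite_Icc _ _)).image _ |>.subset hsub

theorem ncard_ht (N : ℕ) : {x : ℚ | ht x ≤ N}.ncard ≤ (2 * N + 1) ^ 2 := by
  have hsub : {x : ℚ | ht x ≤ N} ⊆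
      (fun p : ℤ × ℤ => (p.1 : ℚ) / (p.2 : ℚ)) '' (Set.Icc (-(N : ℤ)) N ×ˢ Set.Icc (-(N : ℤ)) N) := by
    intro x hx
    refine ⟨(x.num, (x.den : ℤ)), ⟨?_, ?_⟩, ?_⟩
    · have h := (num_le_ht x).trans (Int.ofNat_le.2 hx)
      exact abs_le.1 h
    · have h := (den_le_ht x).trans (Int.ofNat_le.2 hx)
      exact ⟨by have := x.den_pos; omega, h⟩
    · have := Rat.num_div_den x
      simpa using this
  have hfin : (Set.Icc (-(N : ℤ)) N ×ˢ Set.Icc (-(N : ℤ)) N).Finite :=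
    (Set.finite_Icc _ _).prod (Set.finite_Icc _ _)
  refine (Set.ncard_le_ncard hsub (hfin.image _)).trans ((Set.ncard_image_le hfin).trans ?_)
  rw [Set.ncard_prod]
  have h1 : (Set.Icc (-(N : ℤ)) N).ncard = 2 * N + 1 := by
    rw [← Finset.coe_Icc, Set.ncard_coe_finset, Int.card_Icc]
    omega
  rw [h1, sq]

/-- the denominator of a rational number `g` divides `n` if `g n` is an integer -/
theorem den_dvd_of_mul {g : ℚ} {n m : ℤ} (h : g * n = m) : (g.den : ℤ) ∣ n := by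
  have h1 : g.num * n = m * g.den := by
    have h2 : (g.num : ℚ) / g.den * n = m := by rw [Rat.num_div_den]; exact h
    have h3 : (g.den : ℚ) ≠ 0 := by exact_mod_cast g.den_nz
    have h4 : (g.num : ℚ) * n = m * g.den := by
      field_simp at h2
      linarith
    exact_mod_cast h4
  have h5 : (g.den : ℤ) ∣ g.num * n := ⟨m, by rw [h1]; ring⟩
  have hc : IsCoprime (g.den : ℤ) g.num := by
    rw [Int.isCoprime_iff_gcd_eq_one]
    have := g.reduced
    rw [Int.gcd_comm]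
    simpa [Int.gcd, Nat.Coprime] using this
  exact hc.dvd_of_dvd_mul_left h5

/-- **The roots of an integral quadratic**: if `A (z1 + z2) = S`, `A z1 z2 = T` with integers
bounded by `M`, then the product of the heights is at most `2 M`. -/
theorem ht_mul_ht_le {A S T M : ℤ} (hA : A ≠ 0) (hAM : |A| ≤ M) (hSM : |S| ≤ M) (hTM : |T| ≤ M)
    {z w : ℚ} (h1 : A * (z + w) = S) (h2 : A * (z * w) = T) : (ht z : ℤ) * ht w ≤ 2 * M := by
  obtain ⟨s, hs⟩ : ∃ s : ℤ, s = z.num := ⟨_, rfl⟩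
  obtain ⟨t, ht'⟩ : ∃ t : ℤ, t = z.den := ⟨_, rfl⟩
  obtain ⟨u, hu⟩ : ∃ u : ℤ, u = w.num := ⟨_, rfl⟩
  obtain ⟨v, hv⟩ : ∃ v : ℤ, v = w.den := ⟨_, rfl⟩
  have htpos : 0 < t := by rw [ht']; exact_mod_cast z.den_pos
  have hvpos : 0 < v := by rw [hv]; exact_mod_cast w.den_pos
  have hz : z = s / t := by rw [hs, ht']; exact_mod_cast (Rat.num_div_den z).symm
  have hw : w = u / v := by rw [hu, hv]; exact_mod_cast (Rat.num_div_den w).symm
  have hst : IsCoprime s t := by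
    rw [hs, ht', Int.isCoprime_iff_gcd_eq_one]
    simpa [Int.gcd, Nat.Coprime] using z.reduced
  have huv : IsCoprime u v := by
    rw [hu, hv, Int.isCoprime_iff_gcd_eq_one]
    simpa [Int.gcd, Nat.Coprime] using w.reduced
  have htq : (t : ℚ) ≠ 0 := by exact_mod_cast htpos.ne'
  have hvq : (v : ℚ) ≠ 0 := by exact_mod_cast hvpos.ne'
  -- the content
  set g : ℚ := (A : ℚ) / (t * v) with hg
  have e1 : g * ((t * v : ℤ) : ℚ) = (A : ℤ) := by
    rw [hg]; push_cast; field_simp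
  have e2 : g * ((s * u : ℤ) : ℚ) = (T : ℤ) := by
    rw [← h2, hg, hz, hw]; push_cast; field_simp
  have e3 : g * ((s * v + u * t : ℤ) : ℚ) = (S : ℤ) := by
    rw [← h1, hg, hz, hw]; push_cast; field_simp
  have d1 := den_dvd_of_mul e1
  have d2 := den_dvd_of_mul e2
  have d3 := den_dvd_of_mul e3
  have hden : g.den = 1 := by
    by_contra hne
    obtain ⟨l, hl, hld⟩ := Nat.exists_prime_and_dvd hne
    have hlp : Prime (l : ℤ) := Nat.prime_iff_prime_int.1 hl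
    have hld' : (l : ℤ) ∣ g.den := by exact_mod_cast hld
    have f1 := hld'.trans d1
    have f2 := hld'.trans d2
    have f3 := hld'.trans d3
    have nc1 : ∀ {a b : ℤ}, IsCoprime a b → (l : ℤ) ∣ a → (l : ℤ) ∣ b → False := by
      intro a b hab ha hb
      exact hlp.not_isUnit (hab.isUnit_of_dvd' ha hb)
    rcases hlp.dvd_or_dvd f2 with h | h
    · rcases hlp.dvd_or_dvd f1 with h' | h'
      · exact nc1 hst h h'
      · have : (l : ℤ) ∣ u * t := (dvd_add_right (h.mul_right v)).1 f3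
        rcases hlp.dvd_or_dvd this with h'' | h''
        · exact nc1 huv h'' h'
        · exact nc1 hst h h''
    · rcases hlp.dvd_or_dvd f1 with h' | h'
      · have : (l : ℤ) ∣ s * v := (dvd_add_left (h.mul_right t)).1 f3
        rcases hlp.dvd_or_dvd this with h'' | h''
        · exact nc1 hst h'' h'
        · exact nc1 huv h h''
      · exact nc1 huv h h'
  obtain ⟨G, hG⟩ : ∃ G : ℤ, (G : ℚ) = g := ⟨g.num, Rat.coe_int_num_of_den_eq_one hden⟩
  have k1 : G * (t * v) = A := by rw [← hG] at e1; exact_mod_cast e1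
  have k2 : G * (s * u) = T := by rw [← hG] at e2; exact_mod_cast e2
  have k3 : G * (s * v + u * t) = S := by rw [← hG] at e3; exact_mod_cast e3
  have hG0 : G ≠ 0 := by
    rintro rfl
    exact hA (by rw [← k1]; ring)
  have hG1 : 1 ≤ |G| := Int.one_le_abs hG0
  have bd : ∀ {n m : ℤ}, G * n = m → |m| ≤ M → |n| ≤ M := by
    intro n m h h'
    have : |n| ≤ |G| * |n| := by nlinarith [abs_nonneg n]
    rw [← abs_mul, h] at this
    exact this.trans h'
  have b1 : |t * v| ≤ M := bd k1 hAM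
  have b2 : |s * u| ≤ M := bd k2 hTM
  have b3 : |s * v + u * t| ≤ M := bd k3 hSM
  have hM : 0 ≤ M := (abs_nonneg _).trans hAM
  have hprod : |s * v| * |u * t| ≤ M * M := by
    have : |s * v| * |u * t| = |s * u| * |t * v| := by
      rw [← abs_mul, ← abs_mul]; congr 1; ring
    rw [this]
    exact mul_le_mul b2 b1 (abs_nonneg _) hM
  have b4 : |s * v| ≤ 2 * M := by
    by_contra hcon
    push Not at hcon
    have h5 : M < |u * t| := by
      have h6 : |s * v| ≤ |s * v + u * t| + |u * t| := by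
        have := abs_add_le (s * v + u * t) (-(u * t))
        rw [abs_neg] at this
        simpa using this
      linarith
    nlinarith [abs_nonneg (s * v), abs_nonneg (u * t)]
  have b5 : |u * t| ≤ 2 * M := by
    by_contra hcon
    push Not at hcon
    have h5 : M < |s * v| := by
      have h6 : |u * t| ≤ |s * v + u * t| + |s * v| := by
        have := abs_add_le (s * v + u * t) (-(s * v))
        rw [abs_neg] at this
        simpa [add_comm] using this
      linarith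
    nlinarith [abs_nonneg (s * v), abs_nonneg (u * t)]
  have hhz : (ht z : ℤ) = |s| ∨ (ht z : ℤ) = |t| := by
    unfold ht
    rcases max_choice z.num.natAbs z.den with h | h
    · left; rw [h, hs, Int.abs_eq_natAbs]
    · right; rw [h, ht', abs_of_nonneg (by positivity)]
  have hhw : (ht w : ℤ) = |u| ∨ (ht w : ℤ) = |v| := by
    unfold ht
    rcases max_choice w.num.natAbs w.den with h | h
    · left; rw [h, hu, Int.abs_eq_natAbs]
    · right; rw [h, hv, abs_of_nonneg (by positivity)]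
  rcases hhz with h | h <;> rcases hhw with h' | h' <;> rw [h, h', ← abs_mul]
  · linarith
  · exact b4
  · rw [mul_comm]; exact b5
  · linarith

/-- bound for a binary cubic form -/
theorem cubic_bound {p q h : ℤ} (hp : |p| ≤ h) (hq : |q| ≤ h) (c0 c1 c2 c3 : ℤ) :
    |c0 * p ^ 3 + c1 * p ^ 2 * q + c2 * p * q ^ 2 + c3 * q ^ 3| ≤
      (|c0| + |c1| + |c2| + |c3|) * h ^ 3 := by
  have hh : 0 ≤ h := (abs_nonneg _).trans hp
  have m1 : |c0 * p ^ 3| ≤ |c0| * h ^ 3 := by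
    rw [abs_mul, abs_pow]
    exact mul_le_mul_of_nonneg_left (pow_le_pow_left₀ (abs_nonneg _) hp 3) (abs_nonneg _)
  have m2 : |c1 * p ^ 2 * q| ≤ |c1| * h ^ 3 := by
    rw [mul_assoc, abs_mul, abs_mul, abs_pow]
    refine mul_le_mul_of_nonneg_left ?_ (abs_nonneg _)
    calc |p| ^ 2 * |q| ≤ h ^ 2 * h :=
          mul_le_mul (pow_le_pow_left₀ (abs_nonneg _) hp 2) hq (abs_nonneg _) (by positivity)
      _ = h ^ 3 := by ring
  have m3 : |c2 * p * q ^ 2| ≤ |c2| * h ^ 3 := by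
    rw [mul_assoc, abs_mul, abs_mul, abs_pow]
    refine mul_le_mul_of_nonneg_left ?_ (abs_nonneg _)
    calc |p| * |q| ^ 2 ≤ h * h ^ 2 :=
          mul_le_mul hp (pow_le_pow_left₀ (abs_nonneg _) hq 2) (by positivity) hh
      _ = h ^ 3 := by ring
  have m4 : |c3 * q ^ 3| ≤ |c3| * h ^ 3 := by
    rw [abs_mul, abs_pow]
    exact mul_le_mul_of_nonneg_left (pow_le_pow_left₀ (abs_nonneg _) hq 3) (abs_nonneg _)
  calc |c0 * p ^ 3 + c1 * p ^ 2 * q + c2 * p * q ^ 2 + c3 * q ^ 3|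
      ≤ |c0 * p ^ 3| + |c1 * p ^ 2 * q| + |c2 * p * q ^ 2| + |c3 * q ^ 3| := by
        refine (abs_add_le _ _).trans (add_le_add_left ?_ _)
        refine (abs_add_le _ _).trans (add_le_add_left ?_ _)
        exact abs_add_le _ _
    _ ≤ (|c0| + |c1| + |c2| + |c3|) * h ^ 3 := by
        rw [add_mul, add_mul, add_mul]
        exact add_le_add (add_le_add (add_le_add m1 m2) m3) m4

/-- the `x`-coordinate of the double of a point of `D y² = x (x² + a x + b)` -/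
def dup (a b : ℤ) (u : ℚ) : ℚ := (u ^ 2 - b) ^ 2 / (4 * (u * (u ^ 2 + a * u + b)))

/-- **Duplication multiplies the logarithmic height by 4** (lower bound). -/
theorem ht_dup (a b : ℤ) (hb : b ≠ 0) (hd : a ^ 2 - 4 * b ≠ 0) :
    ∃ C : ℕ, ∀ u : ℚ, u * (u ^ 2 + a * u + b) ≠ 0 → ht u ^ 4 ≤ C * ht (dup a b u) := by
  set k1 : ℤ := (|0| + |(-3 : ℤ)| + |(-2 * a)| + |(a ^ 2 - 4 * b)|) with hk1
  set k2 : ℤ := (|3| + |(-a)| + |(-5 * b)| + |(2 * a * b)|) with hk2
  set k3 : ℤ := (|(a ^ 2 - 4 * b)| + |(-2 * a * b)| + |(-3 * b ^ 2)| + |0|) with hk3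
  set k4 : ℤ := (|(2 * a * b)| + |(-5 * b ^ 2)| + |(-a * b ^ 2)| + |(3 * b ^ 3)|) with hk4
  have p1 : 0 ≤ k1 := by positivity
  have p2 : 0 ≤ k2 := by positivity
  have p3 : 0 ≤ k3 := by positivity
  have p4 : 0 ≤ k4 := by positivity
  set K : ℤ := 4 * k1 + k2 + b ^ 2 * (4 * k3 + k4) with hK
  have hK0 : 0 ≤ K := by positivity
  refine ⟨K.toNat, fun u hu => ?_⟩
  obtain ⟨p, hp⟩ : ∃ p : ℤ, p = u.num := ⟨_, rfl⟩
  obtain ⟨q, hq⟩ : ∃ q : ℤ, q = u.den := ⟨_, rfl⟩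
  obtain ⟨s, hs⟩ : ∃ s : ℤ, s = (dup a b u).num := ⟨_, rfl⟩
  obtain ⟨t, ht'⟩ : ∃ t : ℤ, t = (dup a b u).den := ⟨_, rfl⟩
  obtain ⟨h, hh⟩ : ∃ h : ℤ, h = ht u := ⟨_, rfl⟩
  obtain ⟨H, hH⟩ : ∃ H : ℤ, H = ht (dup a b u) := ⟨_, rfl⟩
  have hqpos : 0 < q := by rw [hq]; exact_mod_cast u.den_pos
  have htpos : 0 < t := by rw [ht']; exact_mod_cast (dup a b u).den_pos
  have huq : u = p / q := by rw [hp, hq]; exact_mod_cast (Rat.num_div_den u).symm
  have hzq : dup a b u = s / t := by rw [hs, ht']; exact_mod_cast (Rat.num_div_den _).symm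
  have hqq : (q : ℚ) ≠ 0 := by exact_mod_cast hqpos.ne'
  have htq : (t : ℚ) ≠ 0 := by exact_mod_cast htpos.ne'
  have hst : IsCoprime s t := by
    rw [hs, ht', Int.isCoprime_iff_gcd_eq_one]
    simpa [Int.gcd, Nat.Coprime] using (dup a b u).reduced
  have hpq : IsCoprime p q := by
    rw [hp, hq, Int.isCoprime_iff_gcd_eq_one]
    simpa [Int.gcd, Nat.Coprime] using u.reduced
  have hph : |p| ≤ h := by rw [hp, hh]; exact num_le_ht u
  have hqh : |q| ≤ h := by rw [abs_of_pos hqpos, hq, hh]; exact den_le_ht u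
  have hsH : |s| ≤ H := by rw [hs, hH]; exact num_le_ht _
  have htH : |t| ≤ H := by rw [abs_of_pos htpos, ht', hH]; exact den_le_ht _
  have hh1 : 1 ≤ h := by rw [hh]; exact_mod_cast one_le_ht u
  have hH1 : 1 ≤ H := by rw [hH]; exact_mod_cast one_le_ht _
  set N1 : ℤ := (p ^ 2 - b * q ^ 2) ^ 2 with hN1
  set N2 : ℤ := 4 * (p * q * (p ^ 2 + a * p * q + b * q ^ 2)) with hN2
  have hN2q : (N2 : ℚ) = 4 * (u * (u ^ 2 + a * u + b)) * q ^ 4 := by
    rw [hN2, huq]; push_cast; field_simp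
  have hN20 : (N2 : ℚ) ≠ 0 := by
    rw [hN2q]
    exact mul_ne_zero (mul_ne_zero (by norm_num) hu) (pow_ne_zero _ hqq)
  have hN1q : (N1 : ℚ) = (u ^ 2 - b) ^ 2 * q ^ 4 := by
    rw [hN1, huq]; push_cast; field_simp
  have hrel : N1 * t = s * N2 := by
    have h1 : (N1 : ℚ) / N2 = s / t := by
      rw [← hzq, dup, hN1q, hN2q]
      exact mul_div_mul_right _ _ (pow_ne_zero _ hqq)
    rw [div_eq_div_iff hN20 htq] at h1
    exact_mod_cast h1
  obtain ⟨g, hg⟩ : t ∣ N2 := hst.symm.dvd_of_dvd_mul_left ⟨N1, by rw [← hrel]; ring⟩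
  have hg1 : N1 = g * s := by
    have : N1 * t = g * s * t := by rw [hrel, hg]; ring
    exact mul_right_cancel₀ htpos.ne' this
  have hg2 : N2 = g * t := by rw [hg]; ring
  have id1 : 4 * b ^ 2 * (a ^ 2 - 4 * b) * q ^ 7 =
      4 * (0 * p ^ 3 + (-3) * p ^ 2 * q + (-2 * a) * p * q ^ 2 + (a ^ 2 - 4 * b) * q ^ 3) * N1 +
        (3 * p ^ 3 + (-a) * p ^ 2 * q + (-5 * b) * p * q ^ 2 + (2 * a * b) * q ^ 3) * N2 := by
    rw [hN1, hN2]; ring
  have id2 : 4 * b ^ 2 * (a ^ 2 - 4 * b) * p ^ 7 =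
      b ^ 2 * (4 * ((a ^ 2 - 4 * b) * p ^ 3 + (-2 * a * b) * p ^ 2 * q + (-3 * b ^ 2) * p * q ^ 2 +
        0 * q ^ 3) * N1 +
        ((2 * a * b) * p ^ 3 + (-5 * b ^ 2) * p ^ 2 * q + (-a * b ^ 2) * p * q ^ 2 +
          (3 * b ^ 3) * q ^ 3) * N2) := by
    rw [hN1, hN2]; ring
  have c1 := cubic_bound hph hqh 0 (-3) (-2 * a) (a ^ 2 - 4 * b)
  have c2 := cubic_bound hph hqh 3 (-a) (-5 * b) (2 * a * b)
  have c3 := cubic_bound hph hqh (a ^ 2 - 4 * b) (-2 * a * b) (-3 * b ^ 2) 0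
  have c4 := cubic_bound hph hqh (2 * a * b) (-5 * b ^ 2) (-a * b ^ 2) (3 * b ^ 3)
  rw [← hk1] at c1
  rw [← hk2] at c2
  rw [← hk3] at c3
  rw [← hk4] at c4
  obtain ⟨X1, hX1⟩ : ∃ X : ℤ, X = 0 * p ^ 3 + (-3) * p ^ 2 * q + (-2 * a) * p * q ^ 2 +
    (a ^ 2 - 4 * b) * q ^ 3 := ⟨_, rfl⟩
  obtain ⟨X2, hX2⟩ : ∃ X : ℤ, X = 3 * p ^ 3 + (-a) * p ^ 2 * q + (-5 * b) * p * q ^ 2 +
    (2 * a * b) * q ^ 3 := ⟨_, rfl⟩
  obtain ⟨X3, hX3⟩ : ∃ X : ℤ, X = (a ^ 2 - 4 * b) * p ^ 3 + (-2 * a * b) * p ^ 2 * q +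
    (-3 * b ^ 2) * p * q ^ 2 + 0 * q ^ 3 := ⟨_, rfl⟩
  obtain ⟨X4, hX4⟩ : ∃ X : ℤ, X = (2 * a * b) * p ^ 3 + (-5 * b ^ 2) * p ^ 2 * q +
    (-a * b ^ 2) * p * q ^ 2 + (3 * b ^ 3) * q ^ 3 := ⟨_, rfl⟩
  rw [← hX1] at c1 id1
  rw [← hX2] at c2 id1
  rw [← hX3] at c3 id2
  rw [← hX4] at c4 id2
  set R : ℤ := 4 * b ^ 2 * (a ^ 2 - 4 * b) with hR
  have hR0 : R ≠ 0 := mul_ne_zero (mul_ne_zero (by norm_num) (pow_ne_zero _ hb)) hd
  have gd1 : g ∣ R * q ^ 7 := by
    rw [id1, hg1, hg2]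
    exact ⟨4 * X1 * s + X2 * t, by ring⟩
  have gd2 : g ∣ R * p ^ 7 := by
    rw [id2, hg1, hg2]
    exact ⟨b ^ 2 * (4 * X3 * s + X4 * t), by ring⟩
  have gR : g ∣ R := by
    obtain ⟨m, n, hmn⟩ := (hpq.pow (m := 7) (n := 7))
    have e : R = m * (R * p ^ 7) + n * (R * q ^ 7) := by
      calc R = R * (m * p ^ 7 + n * q ^ 7) := by rw [hmn, mul_one]
        _ = _ := by ring
    rw [e]
    exact dvd_add (gd2.mul_left _) (gd1.mul_left _)
  have gle : |g| ≤ |R| := Int.le_of_dvd (abs_pos.2 hR0) ((abs_dvd_abs _ _).2 gR)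
  have hN1b : |N1| ≤ |R| * H := by
    rw [hg1, abs_mul]
    exact mul_le_mul gle hsH (abs_nonneg _) (abs_nonneg _)
  have hN2b : |N2| ≤ |R| * H := by
    rw [hg2, abs_mul]
    exact mul_le_mul gle htH (abs_nonneg _) (abs_nonneg _)
  have hRH : 0 ≤ |R| * H := (abs_nonneg _).trans hN1b
  have h3 : 0 ≤ h ^ 3 := by positivity
  have a1 : |4 * X1 * N1| = 4 * (|X1| * |N1|) := by
    rw [mul_assoc, abs_mul, abs_mul]; norm_num
  have a3 : |4 * X3 * N1| = 4 * (|X3| * |N1|) := by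
    rw [mul_assoc, abs_mul, abs_mul]; norm_num
  have q1 : |R * q ^ 7| ≤ K * h ^ 3 * (|R| * H) := by
    rw [id1]
    calc |4 * X1 * N1 + X2 * N2| ≤ |4 * X1 * N1| + |X2 * N2| := abs_add_le _ _
      _ = 4 * (|X1| * |N1|) + |X2| * |N2| := by rw [a1, abs_mul X2]
      _ ≤ 4 * ((k1 * h ^ 3) * (|R| * H)) + (k2 * h ^ 3) * (|R| * H) :=
          add_le_add (mul_le_mul_of_nonneg_left
            (mul_le_mul c1 hN1b (abs_nonneg _) (by positivity)) (by norm_num))
            (mul_le_mul c2 hN2b (abs_nonneg _) (by positivity))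
      _ = (4 * k1 + k2) * h ^ 3 * (|R| * H) := by ring
      _ ≤ K * h ^ 3 * (|R| * H) := by
          refine mul_le_mul_of_nonneg_right (mul_le_mul_of_nonneg_right ?_ h3) hRH
          rw [hK]
          have : 0 ≤ b ^ 2 * (4 * k3 + k4) := by positivity
          linarith
  have q2 : |R * p ^ 7| ≤ K * h ^ 3 * (|R| * H) := by
    rw [id2]
    calc |b ^ 2 * (4 * X3 * N1 + X4 * N2)| = b ^ 2 * |4 * X3 * N1 + X4 * N2| := by
          rw [abs_mul, abs_of_nonneg (sq_nonneg b)]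
      _ ≤ b ^ 2 * (|4 * X3 * N1| + |X4 * N2|) :=
          mul_le_mul_of_nonneg_left (abs_add_le _ _) (sq_nonneg b)
      _ = b ^ 2 * (4 * (|X3| * |N1|) + |X4| * |N2|) := by rw [a3, abs_mul X4]
      _ ≤ b ^ 2 * (4 * ((k3 * h ^ 3) * (|R| * H)) + (k4 * h ^ 3) * (|R| * H)) :=
          mul_le_mul_of_nonneg_left (add_le_add (mul_le_mul_of_nonneg_left
            (mul_le_mul c3 hN1b (abs_nonneg _) (by positivity)) (by norm_num))
            (mul_le_mul c4 hN2b (abs_nonneg _) (by positivity))) (sq_nonneg b)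
      _ = b ^ 2 * (4 * k3 + k4) * h ^ 3 * (|R| * H) := by ring
      _ ≤ K * h ^ 3 * (|R| * H) := by
          refine mul_le_mul_of_nonneg_right (mul_le_mul_of_nonneg_right ?_ h3) hRH
          rw [hK]
          linarith
  have hmain : |R| * h ^ 7 ≤ K * h ^ 3 * (|R| * H) := by
    have hhc : h = |p| ∨ h = |q| := by
      rw [hh]; unfold ht
      rcases max_choice u.num.natAbs u.den with h' | h'
      · left; rw [h', hp, Int.abs_eq_natAbs]
      · right; rw [h', abs_of_pos hqpos, hq]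
    rcases hhc with h' | h'
    · have e : |R| * h ^ 7 = |R * p ^ 7| := by rw [abs_mul R, abs_pow, ← h']
      rw [e]; exact q2
    · have e : |R| * h ^ 7 = |R * q ^ 7| := by rw [abs_mul R, abs_pow, ← h']
      rw [e]; exact q1
  have hfin : h ^ 4 ≤ K * H := by
    have hRp : 0 < |R| := abs_pos.2 hR0
    have hpos : 0 < |R| * h ^ 3 := by positivity
    have e1 : |R| * h ^ 7 = h ^ 4 * (|R| * h ^ 3) := by ring
    have e2 : K * h ^ 3 * (|R| * H) = K * H * (|R| * h ^ 3) := by ring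
    rw [e1, e2] at hmain
    exact le_of_mul_le_mul_right hmain hpos
  rw [hh, hH] at hfin
  have : ((ht u ^ 4 : ℕ) : ℤ) ≤ ((K.toNat * ht (dup a b u) : ℕ) : ℤ) := by
    push_cast
    rw [Int.toNat_of_nonneg hK0]
    exact hfin
  exact_mod_cast this

end Pool.Agent.Helper57.PH
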