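import Pool.Agent.Helper57.PH.Twists

/-!
The forms of a separable integer polynomial.
-/

set_option autoImplicit false

namespace Pool.Agent.Helper57.PH

open Polynomial

/-- The number of rational Weierstrass points of `y² = f(x)`: the rational roots of `f`, and the
point at infinity if the degree is odd. -/
noncomputable def W (f : ℤ[X]) : ℕ :=
  (f.map (Int.castRingHom ℚ)).roots.card + f.natDegree % 2

theorem hom_C_mul (c : ℤ) (g : ℤ[X]) (m : ℕ) (a b : ℤ) : hom (C c * g) m a b = c * hom g m a b := by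
  unfold hom
  rw [Finset.mul_sum]
  refine Finset.sum_congr rfl fun i _ => ?_
  rw [coeff_C_mul]; ring

theorem hom_inf (g : ℤ[X]) : hom g g.natDegree (-1) 0 = g.leadingCoeff * (-1) ^ g.natDegree := by
  unfold hom
  rw [Finset.sum_range_succ, Finset.sum_eq_zero]
  · rw [zero_add, Nat.sub_self, pow_zero, mul_one, coeff_natDegree]
  · intro i hi
    have : g.natDegree - i ≠ 0 := Nat.sub_ne_zero_of_lt (Finset.mem_range.mp hi)
    rw [zero_pow this, mul_zero]

theorem exists_enum (M : Multiset ℚ) (hM : M.Nodup) :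
    ∃ r : Fin M.card → ℚ, Function.Injective r ∧ Finset.univ.val.map r = M := by
  have h : ∀ l : List ℚ, l.Nodup → ∃ r : Fin l.length → ℚ, Function.Injective r ∧
      Finset.univ.val.map r = (l : Multiset ℚ) := by
    intro l hl
    refine ⟨l.get, List.nodup_iff_injective_get.mp hl, ?_⟩
    rw [Fin.univ_val_map, List.ofFn_get]
  obtain ⟨l, rfl⟩ := Quot.exists_rep M
  exact h l hM

theorem clear_den (G : ℚ[X]) : ∃ (c : ℤ) (g : ℤ[X]), c ≠ 0 ∧
    g.map (Int.castRingHom ℚ) = C (c : ℚ) * G := by
  obtain ⟨b, hb0, hb⟩ := IsLocalization.integerNormalization_spec (nonZeroDivisors ℤ) G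
  refine ⟨b, IsLocalization.integerNormalization (nonZeroDivisors ℤ) G,
    nonZeroDivisors.ne_zero hb0, ?_⟩
  have h : algebraMap ℤ ℚ = Int.castRingHom ℚ := rfl
  rw [← h, hb]
  ext i
  simp

theorem setup (f : ℤ[X]) (hs : (f.map (Int.castRingHom ℚ)).Separable) :
    ∃ (s t : Fin (W f) → ℤ) (g : ℤ[X]) (m : ℕ), (∀ i, IsCoprime (s i) (t i)) ∧
      (∀ i j, i ≠ j → L (s i) (t i) (s j) (t j) ≠ 0) ∧ (∀ i, hom g m (s i) (t i) ≠ 0) ∧
      ∀ (d : ℤ) (x y : ℚ), y ≠ 0 → (d : ℚ) * y ^ 2 = (f.map (Int.castRingHom ℚ)).eval x →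
        TP s t g m d x.num x.den := by
  classical
  set F := f.map (Int.castRingHom ℚ) with hF
  have hF0 : F ≠ 0 := hs.ne_zero
  have hnod : F.roots.Nodup := nodup_roots hs
  have hdeg : F.natDegree = f.natDegree :=
    natDegree_map_eq_of_injective (RingHom.injective_int _) f
  obtain ⟨G, hG1, hG2, hG3⟩ := exists_prod_multiset_X_sub_C_mul F
  obtain ⟨r, hr, hrM⟩ := exists_enum F.roots hnod
  have hG0 : G ≠ 0 := by
    intro h; rw [h, mul_zero] at hG1; exact hF0 hG1.symm
  have hGr : ∀ x : ℚ, G.eval x ≠ 0 := by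
    intro x hx
    have : x ∈ G.roots := (mem_roots hG0).mpr hx
    rw [hG3] at this
    exact Multiset.notMem_zero _ this
  obtain ⟨c, g, hc0, hg⟩ := clear_den G
  have hgdeg : g.natDegree = G.natDegree := by
    rw [← natDegree_map_eq_of_injective (f := Int.castRingHom ℚ) (RingHom.injective_int _) g, hg,
      natDegree_C_mul (by exact_mod_cast hc0)]
  have hprod : (F.roots.map fun a => X - C a).prod = ∏ i, (X - C (r i)) := by
    conv_lhs => rw [← hrM]
    rw [Multiset.map_map]
    rfl
  have hFx : ∀ x : ℚ, F.eval x = (∏ i, (x - r i)) * G.eval x := by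
    intro x
    conv_lhs => rw [← hG1]
    rw [hprod, eval_mul, eval_prod]
    simp
  set P : ℤ := c * ∏ i, ((r i).den : ℤ) with hP
  have hP0 : P ≠ 0 := mul_ne_zero hc0 (Finset.prod_ne_zero_iff.mpr fun i _ => by
    exact_mod_cast (r i).den_nz)
  set g' : ℤ[X] := C P * g with hg'
  have hg'deg : g'.natDegree = G.natDegree := by rw [hg', natDegree_C_mul hP0, hgdeg]
  have hdenq : ∀ x : ℚ, (x.den : ℚ) ≠ 0 := fun x => by exact_mod_cast x.den_nz
  have hev : ∀ x : ℚ, (hom g' G.natDegree x.num x.den : ℚ) = P * (x.den : ℚ) ^ G.natDegree *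
      (c * G.eval x) := by
    intro x
    rw [hg', hom_C_mul]
    push_cast
    rw [hom_eval g (le_of_eq hgdeg) (by exact_mod_cast x.den_nz), hg]
    simp only [Int.cast_natCast, Rat.num_div_den, eval_mul, eval_C]
    ring
  have hLx : ∀ (x : ℚ) (i : Fin F.roots.card), (L (r i).num (r i).den x.num x.den : ℚ) =
      (r i).den * x.den * (x - r i) := by
    intro x i
    unfold L
    push_cast
    have h1 : (x.den : ℚ) * x = x.num := Rat.den_mul_eq_num x
    have h2 : ((r i).den : ℚ) * r i = (r i).num := Rat.den_mul_eq_num (r i)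
    rw [← h1, ← h2]
    ring
  have hcore : ∀ (x : ℚ), (((∏ i, L (r i).num (r i).den x.num x.den) *
      hom g' G.natDegree x.num x.den : ℤ) : ℚ) = P ^ 2 * (x.den : ℚ) ^ f.natDegree * F.eval x := by
    intro x
    push_cast
    rw [hev x, Finset.prod_congr rfl fun i _ => hLx x i, hFx x, ← hdeg, ← hG2, pow_add,
      Finset.prod_mul_distrib, Finset.prod_mul_distrib, hP]
    simp only [Finset.prod_const, Finset.card_univ, Fintype.card_fin]
    push_cast
    ring
  have hcopr : ∀ x : ℚ, IsCoprime x.num (x.den : ℤ) := fun x => by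
    rw [Int.isCoprime_iff_nat_coprime]; simpa using x.reduced
  have hdet : ∀ i j, i ≠ j → L (r i).num (r i).den (r j).num (r j).den ≠ 0 := by
    intro i j hij h
    have h1 := hLx (r j) i
    rw [h] at h1
    push_cast at h1
    rcases mul_eq_zero.mp h1.symm with h2 | h2
    · exact (mul_ne_zero (hdenq _) (hdenq _)) h2
    · exact hij (hr (sub_eq_zero.mp h2)).symm
  have hhom : ∀ i, hom g' G.natDegree (r i).num (r i).den ≠ 0 := by
    intro i h
    have h1 := hev (r i)
    rw [h] at h1
    push_cast at h1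
    have hP1 : (P : ℚ) ≠ 0 := by exact_mod_cast hP0
    have hc1 : (c : ℚ) ≠ 0 := by exact_mod_cast hc0
    exact (mul_ne_zero (mul_ne_zero hP1 (pow_ne_zero _ (hdenq _))) (mul_ne_zero hc1 (hGr _)))
      h1.symm
  have hP1 : (P : ℚ) ≠ 0 := by exact_mod_cast hP0
  rcases Nat.even_or_odd' f.natDegree with ⟨q, hq | hq⟩
  · have hW : W f = F.roots.card := by unfold W; rw [← hF]; omega
    rw [hW]
    refine ⟨fun i => (r i).num, fun i => (r i).den, g', G.natDegree, fun i => hcopr _, hdet, hhom,
      fun d x y hy hxy => ⟨hcopr x, P * (x.den : ℚ) ^ q * y,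
        mul_ne_zero (mul_ne_zero hP1 (pow_ne_zero _ (hdenq _))) hy, ?_⟩⟩
    rw [hcore x, ← hxy, hq, pow_mul]
    ring
  · have hW : W f = F.roots.card + 1 := by unfold W; rw [← hF]; omega
    rw [hW]
    refine ⟨Fin.cons (-1) fun i => (r i).num, Fin.cons 0 fun i => (r i).den, g', G.natDegree,
      ?_, ?_, ?_, ?_⟩
    · intro i
      refine Fin.cases ?_ (fun i => ?_) i
      · simpa using (isCoprime_zero_right (x := (-1 : ℤ))).mpr (by simp)
      · simpa using hcopr (r i)
    · intro i j
      refine Fin.cases ?_ (fun i => ?_) i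
      · refine Fin.cases ?_ (fun j => ?_) j
        · intro h; exact absurd rfl h
        · intro _
          simp [L]
      · refine Fin.cases ?_ (fun j => ?_) j
        · intro _
          simp [L]
        · intro hij
          simpa using hdet i j (fun h => hij (by rw [h]))
    · intro i
      refine Fin.cases ?_ (fun i => ?_) i
      · simp only [Fin.cons_zero]
        rw [← hg'deg, hom_inf]
        have : g' ≠ 0 := by
          rw [hg']
          refine mul_ne_zero (C_ne_zero.mpr hP0) ?_
          intro h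
          rw [h, Polynomial.map_zero] at hg
          exact (mul_ne_zero (C_ne_zero.mpr (by exact_mod_cast hc0)) hG0) hg.symm
        exact mul_ne_zero (leadingCoeff_ne_zero.mpr this) (pow_ne_zero _ (by norm_num))
      · simpa using hhom i
    · intro d x y hy hxy
      refine ⟨hcopr x, P * (x.den : ℚ) ^ (q + 1) * y,
        mul_ne_zero (mul_ne_zero hP1 (pow_ne_zero _ (hdenq _))) hy, ?_⟩
      rw [Fin.prod_univ_succ]
      simp only [Fin.cons_zero, Fin.cons_succ]
      have h1 := hcore x
      set Pr := ∏ i, L (r i).num ((r i).den : ℤ) x.num (x.den : ℤ) with hPr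
      have h2 : L (-1) 0 x.num (x.den : ℤ) = x.den := by unfold L; ring
      have h3 : (x.den : ℤ) * Pr * hom g' G.natDegree x.num x.den =
          x.den * (Pr * hom g' G.natDegree x.num x.den) := mul_assoc _ _ _
      rw [h2, h3, Int.cast_mul (x.den : ℤ), h1, ← hxy, hq, Int.cast_natCast]
      ring

end Pool.Agent.Helper57.PH
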