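import Pool.Agent.Helper57.PH.Four

/-!
The count of the points of bounded height on the twists.
-/

set_option autoImplicit false

namespace Pool.Agent.Helper57.PH

open Polynomial

variable {k : ℕ} {s t : Fin k → ℤ} {g : ℤ[X]} {m : ℕ}

/-- The twist `d` has a point with coordinate `a / b`. -/
def TP (s t : Fin k → ℤ) (g : ℤ[X]) (m : ℕ) (d a b : ℤ) : Prop :=
  IsCoprime a b ∧ ∃ m0 : ℚ, m0 ≠ 0 ∧
    (d : ℚ) * m0 ^ 2 = ((∏ i, L (s i) (t i) a b) * hom g m a b : ℤ)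

theorem key (hk : 4 ≤ k) (hc : ∀ i, IsCoprime (s i) (t i))
    (hdet : ∀ i j, i ≠ j → L (s i) (t i) (s j) (t j) ≠ 0)
    (hg : ∀ i, hom g m (s i) (t i) ≠ 0) {d a b : ℤ} (hd : Squarefree d) (h : TP s t g m d a b) :
    ∃ (e : Fin 4 ↪ Fin k) (D : ℤ), D ≠ 0 ∧
      D.natAbs ^ k ≤ ((badF s t g m).natAbs ^ k * d.natAbs) ^ 4 ∧
      L (s (e 0)) (t (e 0)) a b ≠ 0 ∧ L (s (e 3)) (t (e 3)) a b ≠ 0 ∧
      Pt (-(al s t e + be s t e)) (al s t e * be s t e) D (xi s t e a b) := by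
  obtain ⟨hab, m0, hm0, hm⟩ := h
  have hR0 : badF s t g m ≠ 0 := badF_ne hg fun i j hij => hdet j i hij
  have hd0 : (d : ℚ) ≠ 0 := by exact_mod_cast hd.ne_zero
  have hne : (∏ i, L (s i) (t i) a b) * hom g m a b ≠ 0 := by
    intro h0
    rw [h0] at hm
    simp [hd0, hm0] at hm
  have hLne : ∀ i, L (s i) (t i) a b ≠ 0 := fun i =>
    Finset.prod_ne_zero_iff.mp (left_ne_zero_of_mul hne) i (Finset.mem_univ i)
  choose σ v hσ hv hL using fun i => exists_sqf (hLne i)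
  have h1 := prod_le hc hR0 hab hd hm0 hm hv hσ hL
  obtain ⟨e, he⟩ := window hk (fun i => (σ i).natAbs)
  refine ⟨e, ∏ i, σ (e i), Finset.prod_ne_zero_iff.mpr fun i _ => (hσ _).ne_zero, ?_, hLne _,
    hLne _, ?_⟩
  · have hpr : (∏ i, σ (e i)).natAbs = ∏ i, (σ (e i)).natAbs := map_prod Int.natAbsHom _ _
    rw [hpr]
    exact le_trans he (Nat.pow_le_pow_left h1 4)
  · exact weier (s := fun i => s (e i)) (t := fun i => t (e i)) (σ := fun i => σ (e i))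
      (v := fun i => v (e i)) (fun i => hv _) (fun i => (hσ _).ne_zero) (fun i => hL _)
      (hdet _ _ (e.injective.ne (by decide))) (hdet _ _ (e.injective.ne (by decide)))
      (hdet _ _ (e.injective.ne (by decide)))

/-- A bound for the height of the coordinate. -/
def hc0 (s t : Fin k → ℤ) (e : Fin 4 ↪ Fin k) : ℕ :=
  (1 + (mu s t e).natAbs) * ((s (e 0)).natAbs + (t (e 0)).natAbs + (s (e 3)).natAbs +
    (t (e 3)).natAbs + 1)

theorem one_le_hc0 (s t : Fin k → ℤ) (e : Fin 4 ↪ Fin k) : 1 ≤ hc0 s t e :=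
  Nat.one_le_iff_ne_zero.mpr (mul_ne_zero (by omega) (by omega))

theorem L_le {s t a b : ℤ} {n : ℕ} (ha : a.natAbs ≤ n) (hb : b.natAbs ≤ n) :
    (L s t a b).natAbs ≤ (s.natAbs + t.natAbs) * n := by
  unfold L
  calc (t * a - s * b).natAbs ≤ (t * a).natAbs + (s * b).natAbs := Int.natAbs_sub_le _ _
    _ = t.natAbs * a.natAbs + s.natAbs * b.natAbs := by rw [Int.natAbs_mul, Int.natAbs_mul]
    _ ≤ t.natAbs * n + s.natAbs * n := Nat.add_le_add (Nat.mul_le_mul_left _ ha)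
        (Nat.mul_le_mul_left _ hb)
    _ = (s.natAbs + t.natAbs) * n := by ring

theorem ht_xi (e : Fin 4 ↪ Fin k) {a b : ℤ} {n : ℕ} (ha : a.natAbs ≤ n) (hb : b.natAbs ≤ n)
    (h3 : L (s (e 3)) (t (e 3)) a b ≠ 0) : ht (xi s t e a b) ≤ hc0 s t e * n := by
  refine le_trans (ht_div_le h3) (max_le ?_ ?_)
  · rw [Int.natAbs_mul]
    have := L_le (s := s (e 0)) (t := t (e 0)) ha hb
    calc (mu s t e).natAbs * (L (s (e 0)) (t (e 0)) a b).natAbs
        ≤ (1 + (mu s t e).natAbs) * (((s (e 0)).natAbs + (t (e 0)).natAbs) * n) :=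
          Nat.mul_le_mul (by omega) this
      _ ≤ (1 + (mu s t e).natAbs) * (((s (e 0)).natAbs + (t (e 0)).natAbs + (s (e 3)).natAbs +
          (t (e 3)).natAbs + 1) * n) :=
          Nat.mul_le_mul_left _ (Nat.mul_le_mul_right _ (by omega))
      _ = hc0 s t e * n := by unfold hc0; ring
  · have := L_le (s := s (e 3)) (t := t (e 3)) ha hb
    calc (L (s (e 3)) (t (e 3)) a b).natAbs
        ≤ 1 * (((s (e 3)).natAbs + (t (e 3)).natAbs) * n) := by rw [one_mul]; exact this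
      _ ≤ (1 + (mu s t e).natAbs) * (((s (e 0)).natAbs + (t (e 0)).natAbs + (s (e 3)).natAbs +
          (t (e 3)).natAbs + 1) * n) :=
          Nat.mul_le_mul (by omega) (Nat.mul_le_mul_right _ (by omega))
      _ = hc0 s t e * n := by unfold hc0; ring

/-- The finite set of the triples. -/
noncomputable def target (s t : Fin k → ℤ) (T n : ℕ) : Finset ((Fin 4 ↪ Fin k) × ℤ × ℚ) :=
  Finset.univ.biUnion fun e => ((Finset.Icc (-(T : ℤ)) T).erase 0).biUnion fun D =>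
    ((finite_S (-(al s t e + be s t e)) (al s t e * be s t e) D (hc0 s t e * n)).toFinset).image
      fun x => (e, D, x)

theorem card_target (s t : Fin k → ℤ) (T n : ℕ) : (target s t T n).card ≤
    ∑ e, ∑ D ∈ (Finset.Icc (-(T : ℤ)) T).erase 0, NN (al s t e) (be s t e) D (hc0 s t e * n) := by
  unfold target
  refine le_trans Finset.card_biUnion_le (Finset.sum_le_sum fun e _ => ?_)
  refine le_trans Finset.card_biUnion_le (Finset.sum_le_sum fun D _ => ?_)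
  refine le_trans Finset.card_image_le ?_
  unfold NN
  rw [Set.ncard_eq_toFinset_card _ (finite_S _ _ _ _)]

theorem ncard_le_target (hk : 4 ≤ k) (hc : ∀ i, IsCoprime (s i) (t i))
    (hdet : ∀ i j, i ≠ j → L (s i) (t i) (s j) (t j) ≠ 0)
    (hg : ∀ i, hom g m (s i) (t i) ≠ 0) {B n T : ℕ}
    (hT : ∀ D : ℕ, D ^ k ≤ ((badF s t g m).natAbs ^ k * B) ^ 4 → D ≤ T) {X : Set ℚ}
    (hX : ∀ x ∈ X, x.num.natAbs ≤ n ∧ x.den ≤ n ∧ ∃ d : ℤ, Squarefree d ∧ d.natAbs ≤ B ∧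
      TP s t g m d x.num x.den) : X.ncard ≤ (target s t T n).card := by
  classical
  have h1 : ∀ x ∈ X, ∃ p : (Fin 4 ↪ Fin k) × ℤ × ℚ, p ∈ target s t T n ∧
      L (s (p.1 3)) (t (p.1 3)) x.num x.den ≠ 0 ∧ p.2.2 = xi s t p.1 x.num x.den := by
    intro x hx
    obtain ⟨ha, hb, d, hsd, hdB, hTP⟩ := hX x hx
    obtain ⟨e, D, hD0, hDk, h0, h3, hPt⟩ := key hk hc hdet hg hsd hTP
    refine ⟨(e, D, xi s t e x.num x.den), ?_, h3, rfl⟩
    unfold target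
    refine Finset.mem_biUnion.mpr ⟨e, Finset.mem_univ e, Finset.mem_biUnion.mpr ⟨D, ?_, ?_⟩⟩
    · have hDT : D.natAbs ≤ T := hT _ (le_trans hDk (Nat.pow_le_pow_left
        (Nat.mul_le_mul_left _ hdB) 4))
      refine Finset.mem_erase.mpr ⟨hD0, Finset.mem_Icc.mpr ?_⟩
      constructor <;> omega
    · refine Finset.mem_image.mpr ⟨xi s t e x.num x.den, ?_, rfl⟩
      rw [Set.Finite.mem_toFinset]
      exact ⟨hPt, ht_xi e ha (by simpa using hb) h3⟩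
  have hne : Nonempty (Fin 4 ↪ Fin k) := ⟨Fin.castLEEmb hk⟩
  choose! φ hφ using h1
  have h2 : X.ncard ≤ ((target s t T n : Set ((Fin 4 ↪ Fin k) × ℤ × ℚ))).ncard := by
    refine Set.ncard_le_ncard_of_injOn φ (fun x hx => (hφ x hx).1) ?_ (Finset.finite_toSet _)
    intro x hx x' hx' heq
    obtain ⟨_, h3, hxi⟩ := hφ x hx
    obtain ⟨_, h3', hxi'⟩ := hφ x' hx'
    rw [← heq] at h3' hxi'
    have hcr := xi_inj hdet (φ x).1 h3 h3' (hxi.symm.trans hxi')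
    have hq : (x.den : ℚ) ≠ 0 := by exact_mod_cast x.den_nz
    have hq' : (x'.den : ℚ) ≠ 0 := by exact_mod_cast x'.den_nz
    rw [← Rat.num_div_den x, ← Rat.num_div_den x', div_eq_div_iff hq hq']
    exact_mod_cast hcr
  rwa [Set.ncard_coe_finset] at h2

/-- The count. -/
theorem count (hk : 4 ≤ k) (hc : ∀ i, IsCoprime (s i) (t i))
    (hdet : ∀ i j, i ≠ j → L (s i) (t i) (s j) (t j) ≠ 0)
    (hg : ∀ i, hom g m (s i) (t i) ≠ 0) {ε : ℝ} (hε : 0 < ε) :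
    ∃ C : ℝ, 1 ≤ C ∧ ∀ (B n : ℕ), 1 ≤ B → 1 ≤ n → ∀ X : Set ℚ,
      (∀ x ∈ X, x.num.natAbs ≤ n ∧ x.den ≤ n ∧ ∃ d : ℤ, Squarefree d ∧ d.natAbs ≤ B ∧
      TP s t g m d x.num x.den) → (X.ncard : ℝ) ≤ C * (B : ℝ) ^ ((4 : ℝ) / k + ε) * (n : ℝ) ^ ε := by
  classical
  choose C hC1 hC using fun e : Fin 4 ↪ Fin k =>
    few_points (al_ne hdet e) (be_ne hdet e) (al_ne_be hdet e) hε
  have hR0 : badF s t g m ≠ 0 := badF_ne hg fun i j hij => hdet j i hij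
  set Q : ℕ := (badF s t g m).natAbs ^ k with hQ
  have hQ1 : 1 ≤ Q := Nat.one_le_iff_ne_zero.mpr (pow_ne_zero _ (Int.natAbs_ne_zero.mpr hR0))
  have hne : Nonempty (Fin 4 ↪ Fin k) := ⟨Fin.castLEEmb hk⟩
  set Z0 : ℝ := ∑ e : Fin 4 ↪ Fin k, C e * (hc0 s t e : ℝ) ^ ε with hZ0
  have hk0 : (0 : ℝ) < k := by exact_mod_cast (by omega : 0 < k)
  have hZ1 : 1 ≤ Z0 := by
    obtain ⟨e⟩ := hne
    have h1 : ∀ e : Fin 4 ↪ Fin k, 1 ≤ C e * (hc0 s t e : ℝ) ^ ε := fun e =>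
      one_le_mul_of_one_le_of_one_le (hC1 e) (Real.one_le_rpow
        (by exact_mod_cast one_le_hc0 s t e) hε.le)
    exact le_trans (h1 e) (Finset.single_le_sum (f := fun e => C e * (hc0 s t e : ℝ) ^ ε)
      (fun e _ => le_trans zero_le_one (h1 e)) (Finset.mem_univ e))
  refine ⟨3 * (Q : ℝ) ^ ((4 : ℝ) / k + ε) * Z0, ?_, ?_⟩
  · have : (1 : ℝ) ≤ (Q : ℝ) ^ ((4 : ℝ) / k + ε) := Real.one_le_rpow (by exact_mod_cast hQ1)
      (by positivity)
    nlinarith [mul_le_mul this hZ1 zero_le_one (le_trans zero_le_one this)]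
  intro B n hB hn X hX
  set Y : ℝ := ((Q * B : ℕ) : ℝ) ^ ((4 : ℝ) / k) with hY
  have hQB : (1 : ℝ) ≤ ((Q * B : ℕ) : ℝ) := by
    exact_mod_cast Nat.one_le_iff_ne_zero.mpr (mul_ne_zero (by omega) (by omega))
  have hY1 : 1 ≤ Y := Real.one_le_rpow hQB (by positivity)
  set T : ℕ := ⌊Y⌋₊ with hTdef
  have hTY : (T : ℝ) ≤ Y := Nat.floor_le (le_trans zero_le_one hY1)
  have hT : ∀ D : ℕ, D ^ k ≤ ((badF s t g m).natAbs ^ k * B) ^ 4 → D ≤ T := by
    intro D hDk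
    refine Nat.le_floor ?_
    have h1 : ((D : ℝ) ^ (k : ℝ)) ≤ ((Q * B : ℕ) : ℝ) ^ (4 : ℝ) := by
      have : ((D ^ k : ℕ) : ℝ) ≤ (((Q * B) ^ 4 : ℕ) : ℝ) := by exact_mod_cast hDk
      rw [Real.rpow_natCast]
      have e4 : ((Q * B : ℕ) : ℝ) ^ (4 : ℝ) = ((Q * B : ℕ) : ℝ) ^ (4 : ℕ) := by
        rw [← Real.rpow_natCast]; norm_num
      rw [e4]
      exact_mod_cast this
    have h2 := Real.rpow_le_rpow (by positivity) h1 (by positivity : (0 : ℝ) ≤ 1 / k)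
    rw [← Real.rpow_mul (by positivity), ← Real.rpow_mul (by positivity)] at h2
    rw [mul_one_div_cancel hk0.ne', Real.rpow_one, mul_one_div] at h2
    exact h2
  have h1 := ncard_le_target hk hc hdet hg hT hX
  have h2 := le_trans h1 (card_target s t T n)
  have h3 : ∀ e : Fin 4 ↪ Fin k, ∀ D ∈ (Finset.Icc (-(T : ℤ)) T).erase 0,
      (NN (al s t e) (be s t e) D (hc0 s t e * n) : ℝ) ≤
        C e * (hc0 s t e : ℝ) ^ ε * (Y ^ ε * (n : ℝ) ^ ε) := by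
    intro e D hDm
    obtain ⟨hD0, hDI⟩ := Finset.mem_erase.mp hDm
    have hDI := Finset.mem_Icc.mp hDI
    have h4 := hC e D hD0 (hc0 s t e * n) (Nat.one_le_iff_ne_zero.mpr
      (mul_ne_zero (Nat.one_le_iff_ne_zero.mp (one_le_hc0 s t e)) (by omega)))
    have hDT : ((|D| : ℤ) : ℝ) ≤ Y := by
      refine le_trans ?_ hTY
      have : |D| ≤ (T : ℤ) := abs_le.mpr hDI
      exact_mod_cast this
    have h5 : ((|D| : ℤ) : ℝ) ^ ε ≤ Y ^ ε := Real.rpow_le_rpow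
      (by exact_mod_cast abs_nonneg D) hDT hε.le
    have hC0 : 0 ≤ C e := le_trans zero_le_one (hC1 e)
    calc (NN (al s t e) (be s t e) D (hc0 s t e * n) : ℝ)
        ≤ C e * ((|D| : ℤ) : ℝ) ^ ε * ((hc0 s t e * n : ℕ) : ℝ) ^ ε := h4
      _ ≤ C e * Y ^ ε * ((hc0 s t e * n : ℕ) : ℝ) ^ ε := by
          refine mul_le_mul_of_nonneg_right (mul_le_mul_of_nonneg_left h5 hC0) (by positivity)
      _ = C e * (hc0 s t e : ℝ) ^ ε * (Y ^ ε * (n : ℝ) ^ ε) := by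
          rw [Nat.cast_mul, Real.mul_rpow (by positivity) (by positivity)]; ring
  have hcardT : (((Finset.Icc (-(T : ℤ)) T).erase 0).card : ℝ) ≤ 3 * Y := by
    have : ((Finset.Icc (-(T : ℤ)) T).erase 0).card ≤ 2 * T + 1 := by
      refine le_trans (Finset.card_erase_le) ?_
      rw [Int.card_Icc]; omega
    calc (((Finset.Icc (-(T : ℤ)) T).erase 0).card : ℝ) ≤ ((2 * T + 1 : ℕ) : ℝ) := by
          exact_mod_cast this
      _ = 2 * (T : ℝ) + 1 := by push_cast; ring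
      _ ≤ 3 * Y := by linarith
  have h6 : (X.ncard : ℝ) ≤ ∑ e : Fin 4 ↪ Fin k, ∑ D ∈ (Finset.Icc (-(T : ℤ)) T).erase 0,
      (NN (al s t e) (be s t e) D (hc0 s t e * n) : ℝ) := by
    exact_mod_cast h2
  have h7 : (X.ncard : ℝ) ≤ 3 * Y * (Y ^ ε * (n : ℝ) ^ ε) * Z0 := by
    refine le_trans h6 ?_
    rw [hZ0, Finset.mul_sum]
    refine Finset.sum_le_sum fun e _ => ?_
    refine le_trans (Finset.sum_le_sum (h3 e)) ?_
    rw [Finset.sum_const, nsmul_eq_mul]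
    have hC0 : 0 ≤ C e := le_trans zero_le_one (hC1 e)
    calc (((Finset.Icc (-(T : ℤ)) T).erase 0).card : ℝ) *
          (C e * (hc0 s t e : ℝ) ^ ε * (Y ^ ε * (n : ℝ) ^ ε))
        ≤ 3 * Y * (C e * (hc0 s t e : ℝ) ^ ε * (Y ^ ε * (n : ℝ) ^ ε)) :=
          mul_le_mul_of_nonneg_right hcardT (by positivity)
      _ = 3 * Y * (Y ^ ε * (n : ℝ) ^ ε) * (C e * (hc0 s t e : ℝ) ^ ε) := by ring
  have hYε : Y ^ ε ≤ ((Q * B : ℕ) : ℝ) ^ ε := by
    rw [hY, ← Real.rpow_mul (by positivity)]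
    refine Real.rpow_le_rpow_of_exponent_le hQB ?_
    have : (4 : ℝ) / k ≤ 1 := by
      rw [div_le_one hk0]; exact_mod_cast hk
    nlinarith
  calc (X.ncard : ℝ) ≤ 3 * Y * (Y ^ ε * (n : ℝ) ^ ε) * Z0 := h7
    _ ≤ 3 * Y * (((Q * B : ℕ) : ℝ) ^ ε * (n : ℝ) ^ ε) * Z0 := by
        refine mul_le_mul_of_nonneg_right (mul_le_mul_of_nonneg_left
          (mul_le_mul_of_nonneg_right hYε (by positivity)) (by positivity))
          (le_trans zero_le_one hZ1)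
    _ = 3 * (((Q * B : ℕ) : ℝ) ^ ((4 : ℝ) / k + ε)) * Z0 * (n : ℝ) ^ ε := by
        rw [hY, Real.rpow_add (by linarith)]; ring
    _ = 3 * (Q : ℝ) ^ ((4 : ℝ) / k + ε) * Z0 * (B : ℝ) ^ ((4 : ℝ) / k + ε) * (n : ℝ) ^ ε := by
        rw [Nat.cast_mul, Real.mul_rpow (by positivity) (by positivity)]; ring

end Pool.Agent.Helper57.PH
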